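import Pool.Agent.LibO1.Defs

/-!
MP_b19625: closure properties of `add M`.
-/

set_option autoImplicit false

namespace Pool.Agent.LibO1

variable {R : Type} [Ring R] {M X Y Z : Type} [AddCommGroup M] [Module R M] [AddCommGroup X]
  [Module R X] [AddCommGroup Y] [Module R Y] [AddCommGroup Z] [Module R Z]

theorem inAdd_of_fintype {J : Type} [Fintype J] (i : X →ₗ[R] (J → M)) (p : (J → M) →ₗ[R] X)
    (h : p ∘ₗ i = LinearMap.id) : InAdd R M X := by
  let e : (J → M) ≃ₗ[R] (Fin (Fintype.card J) → M) :=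
    LinearEquiv.funCongrLeft R M (Fintype.equivFin J).symm
  refine ⟨Fintype.card J, e.toLinearMap ∘ₗ i, p ∘ₗ e.symm.toLinearMap, ?_⟩
  ext x
  simpa using LinearMap.congr_fun h x

theorem inAdd_self : InAdd R M M :=
  ⟨1, LinearMap.pi fun _ => LinearMap.id, LinearMap.proj 0, by ext x; rfl⟩

theorem InAdd.retract (h : InAdd R M Z) (i : X →ₗ[R] Z) (p : Z →ₗ[R] X)
    (hpi : p ∘ₗ i = LinearMap.id) : InAdd R M X := by
  obtain ⟨n, a, b, hab⟩ := h
  refine ⟨n, a ∘ₗ i, p ∘ₗ b, ?_⟩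
  ext x
  have h1 := LinearMap.congr_fun hab (i x)
  have h2 := LinearMap.congr_fun hpi x
  simp only [LinearMap.comp_apply, LinearMap.id_apply] at h1 h2 ⊢
  rw [h1, h2]

theorem InAdd.congr (h : InAdd R M X) (e : X ≃ₗ[R] Y) : InAdd R M Y :=
  h.retract e.symm.toLinearMap e.toLinearMap (by ext x; simp)

theorem inAdd_pi {J : Type} [Fintype J] [DecidableEq J] {X : J → Type}
    [∀ j, AddCommGroup (X j)] [∀ j, Module R (X j)] (h : ∀ j, InAdd R M (X j)) :
    InAdd R M (∀ j, X j) := by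
  choose n i p hip using h
  refine inAdd_of_fintype (J := Σ j, Fin (n j))
    (LinearMap.pi fun s => LinearMap.proj s.2 ∘ₗ i s.1 ∘ₗ LinearMap.proj s.1)
    (LinearMap.pi fun j => p j ∘ₗ LinearMap.pi fun a => LinearMap.proj (⟨j, a⟩ : Σ j, Fin (n j)))
    ?_
  refine LinearMap.ext fun x => funext fun j => ?_
  exact LinearMap.congr_fun (hip j) (x j)

theorem inAdd_prod (hX : InAdd R M X) (hY : InAdd R M Y) : InAdd R M (X × Y) := by
  obtain ⟨n, i, p, h1⟩ := hX
  obtain ⟨m, j, q, h2⟩ := hY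
  refine inAdd_of_fintype (J := Fin n ⊕ Fin m)
    (LinearMap.pi (Sum.elim (fun a => LinearMap.proj a ∘ₗ i ∘ₗ LinearMap.fst R X Y)
      fun a => LinearMap.proj a ∘ₗ j ∘ₗ LinearMap.snd R X Y))
    ((p ∘ₗ LinearMap.pi fun a => LinearMap.proj (Sum.inl a)).prod
      (q ∘ₗ LinearMap.pi fun a => LinearMap.proj (Sum.inr a))) ?_
  refine LinearMap.ext fun x => ?_
  have h3 := LinearMap.congr_fun h1 x.1
  have h4 := LinearMap.congr_fun h2 x.2
  exact Prod.ext h3 h4

theorem inAdd_of_subsingleton [Subsingleton X] : InAdd R M X :=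
  ⟨0, 0, 0, by ext x; exact Subsingleton.elim _ _⟩

/-- If every map `M → X` lifts along `f`, then so does every map from an object of `add M`. -/
theorem InAdd.lift (h : InAdd R M Z) (f : Y →ₗ[R] X)
    (hf : ∀ φ : M →ₗ[R] X, ∃ ψ : M →ₗ[R] Y, f ∘ₗ ψ = φ) (φ : Z →ₗ[R] X) :
    ∃ ψ : Z →ₗ[R] Y, f ∘ₗ ψ = φ := by
  classical
  obtain ⟨n, i, p, hpi⟩ := h
  choose ψ hψ using fun a => hf (φ ∘ₗ p ∘ₗ LinearMap.single R (fun _ : Fin n => M) a)
  refine ⟨(LinearMap.lsum R (fun _ : Fin n => M) ℕ ψ) ∘ₗ i, ?_⟩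
  have h1 : f ∘ₗ LinearMap.lsum R (fun _ : Fin n => M) ℕ ψ = φ ∘ₗ p := by
    refine LinearMap.pi_ext' fun a => ?_
    refine LinearMap.ext fun m => ?_
    have := LinearMap.congr_fun (hψ a) m
    simp only [LinearMap.comp_apply] at this ⊢
    rw [← this]
    congr 1
    simp only [LinearMap.lsum_apply, LinearMap.sum_apply, LinearMap.comp_apply,
      LinearMap.proj_apply, LinearMap.coe_single]
    rw [Finset.sum_eq_single a]
    · simp
    · intro b _ hb
      rw [Pi.single_eq_of_ne hb, map_zero]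
    · intro h; exact absurd (Finset.mem_univ a) h
  rw [← LinearMap.comp_assoc, h1, LinearMap.comp_assoc, hpi, LinearMap.comp_id]

end Pool.Agent.LibO1
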