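import Mathlib

/-!
MP_b19625: the symmetric algebra `Alg K ι`: quiver with vertices `ℤ/3`, arrows `a_{k,v} : v → v + 1`
for `k ∈ ι`, relations `a_k a_l = 0` for `k ≠ l` and `a_k³ = a_l³`. An element has coordinates
`c0 v` (idempotents), `c1 k v` (arrows), `c2 k v` (paths of length two), `c3 v` (socle).
-/

set_option autoImplicit false

namespace Pool.Agent.LibO1

open Finset

/-- The algebra. -/
@[ext]
structure Alg (K : Type) (ι : Type) where
  c0 : ZMod 3 → K
  c1 : ι → ZMod 3 → K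
  c2 : ι → ZMod 3 → K
  c3 : ZMod 3 → K

namespace Alg

variable {K : Type} [Field K] {ι : Type}

theorem z12 (v : ZMod 3) : v + 1 + 2 = v := by rw [add_assoc]; simpa using (by decide : ((1 : ZMod 3) + 2 = 0))
theorem z21 (v : ZMod 3) : v + 2 + 1 = v := by rw [add_assoc]; simpa using (by decide : ((2 : ZMod 3) + 1 = 0))
theorem z11 (v : ZMod 3) : v + 1 + 1 = v + 2 := by rw [add_assoc]; congr 1
theorem z22 (v : ZMod 3) : v + 2 + 2 = v + 1 := by rw [add_assoc]; congr 1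

instance : Zero (Alg K ι) := ⟨⟨0, 0, 0, 0⟩⟩
instance : One (Alg K ι) := ⟨⟨1, 0, 0, 0⟩⟩
instance : Add (Alg K ι) := ⟨fun x y => ⟨x.c0 + y.c0, x.c1 + y.c1, x.c2 + y.c2, x.c3 + y.c3⟩⟩
instance : Neg (Alg K ι) := ⟨fun x => ⟨-x.c0, -x.c1, -x.c2, -x.c3⟩⟩
instance : Sub (Alg K ι) := ⟨fun x y => ⟨x.c0 - y.c0, x.c1 - y.c1, x.c2 - y.c2, x.c3 - y.c3⟩⟩
instance : SMul K (Alg K ι) := ⟨fun c x => ⟨c • x.c0, c • x.c1, c • x.c2, c • x.c3⟩⟩

@[simp] theorem zero_c0 : (0 : Alg K ι).c0 = 0 := rfl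
@[simp] theorem zero_c1 : (0 : Alg K ι).c1 = 0 := rfl
@[simp] theorem zero_c2 : (0 : Alg K ι).c2 = 0 := rfl
@[simp] theorem zero_c3 : (0 : Alg K ι).c3 = 0 := rfl
@[simp] theorem one_c0 : (1 : Alg K ι).c0 = 1 := rfl
@[simp] theorem one_c1 : (1 : Alg K ι).c1 = 0 := rfl
@[simp] theorem one_c2 : (1 : Alg K ι).c2 = 0 := rfl
@[simp] theorem one_c3 : (1 : Alg K ι).c3 = 0 := rfl
@[simp] theorem add_c0 (x y : Alg K ι) : (x + y).c0 = x.c0 + y.c0 := rfl
@[simp] theorem add_c1 (x y : Alg K ι) : (x + y).c1 = x.c1 + y.c1 := rfl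
@[simp] theorem add_c2 (x y : Alg K ι) : (x + y).c2 = x.c2 + y.c2 := rfl
@[simp] theorem add_c3 (x y : Alg K ι) : (x + y).c3 = x.c3 + y.c3 := rfl
@[simp] theorem neg_c0 (x : Alg K ι) : (-x).c0 = -x.c0 := rfl
@[simp] theorem neg_c1 (x : Alg K ι) : (-x).c1 = -x.c1 := rfl
@[simp] theorem neg_c2 (x : Alg K ι) : (-x).c2 = -x.c2 := rfl
@[simp] theorem neg_c3 (x : Alg K ι) : (-x).c3 = -x.c3 := rfl
@[simp] theorem sub_c0 (x y : Alg K ι) : (x - y).c0 = x.c0 - y.c0 := rfl
@[simp] theorem sub_c1 (x y : Alg K ι) : (x - y).c1 = x.c1 - y.c1 := rfl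
@[simp] theorem sub_c2 (x y : Alg K ι) : (x - y).c2 = x.c2 - y.c2 := rfl
@[simp] theorem sub_c3 (x y : Alg K ι) : (x - y).c3 = x.c3 - y.c3 := rfl
@[simp] theorem smul_c0 (c : K) (x : Alg K ι) : (c • x).c0 = c • x.c0 := rfl
@[simp] theorem smul_c1 (c : K) (x : Alg K ι) : (c • x).c1 = c • x.c1 := rfl
@[simp] theorem smul_c2 (c : K) (x : Alg K ι) : (c • x).c2 = c • x.c2 := rfl
@[simp] theorem smul_c3 (c : K) (x : Alg K ι) : (c • x).c3 = c • x.c3 := rfl

/-- The coordinates. -/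
def coords (x : Alg K ι) :
    (ZMod 3 → K) × (ι → ZMod 3 → K) × (ι → ZMod 3 → K) × (ZMod 3 → K) :=
  (x.c0, x.c1, x.c2, x.c3)

omit [Field K] in
theorem coords_injective : Function.Injective (coords : Alg K ι → _) := by
  intro x y h
  simp only [coords, Prod.mk.injEq] at h
  exact Alg.ext h.1 h.2.1 h.2.2.1 h.2.2.2

instance instNSMul : SMul ℕ (Alg K ι) := ⟨fun c x => ⟨c • x.c0, c • x.c1, c • x.c2, c • x.c3⟩⟩
instance instZSMul : SMul ℤ (Alg K ι) := ⟨fun c x => ⟨c • x.c0, c • x.c1, c • x.c2, c • x.c3⟩⟩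

instance : AddCommGroup (Alg K ι) :=
  coords_injective.addCommGroup _ rfl (fun _ _ => rfl) (fun _ => rfl) (fun _ _ => rfl)
    (fun _ _ => rfl) (fun _ _ => rfl)

/-- The coordinates, as an additive map. -/
def coordsHom : Alg K ι →+ (ZMod 3 → K) × (ι → ZMod 3 → K) × (ι → ZMod 3 → K) × (ZMod 3 → K) where
  toFun := coords
  map_zero' := rfl
  map_add' _ _ := rfl

instance : Module K (Alg K ι) :=
  coords_injective.module K coordsHom fun _ _ => rfl

/-- The coordinates, as a linear equivalence. -/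
def equiv : Alg K ι ≃ₗ[K]
    (ZMod 3 → K) × (ι → ZMod 3 → K) × (ι → ZMod 3 → K) × (ZMod 3 → K) where
  toFun := coords
  invFun x := ⟨x.1, x.2.1, x.2.2.1, x.2.2.2⟩
  map_add' _ _ := rfl
  map_smul' _ _ := rfl
  left_inv _ := rfl
  right_inv _ := rfl

variable [Fintype ι]

instance : Mul (Alg K ι) := ⟨fun x y =>
  ⟨fun v => x.c0 v * y.c0 v,
   fun k v => x.c0 v * y.c1 k v + x.c1 k v * y.c0 (v + 1),
   fun k v => x.c0 v * y.c2 k v + x.c1 k v * y.c1 k (v + 1) + x.c2 k v * y.c0 (v + 2),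
   fun v => x.c0 v * y.c3 v + ∑ k, (x.c1 k v * y.c2 k (v + 1) + x.c2 k v * y.c1 k (v + 2)) +
    x.c3 v * y.c0 v⟩⟩

@[simp] theorem mul_c0 (x y : Alg K ι) (v : ZMod 3) : (x * y).c0 v = x.c0 v * y.c0 v := rfl
@[simp] theorem mul_c1 (x y : Alg K ι) (k : ι) (v : ZMod 3) :
    (x * y).c1 k v = x.c0 v * y.c1 k v + x.c1 k v * y.c0 (v + 1) := rfl
@[simp] theorem mul_c2 (x y : Alg K ι) (k : ι) (v : ZMod 3) :
    (x * y).c2 k v = x.c0 v * y.c2 k v + x.c1 k v * y.c1 k (v + 1) + x.c2 k v * y.c0 (v + 2) := rfl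
@[simp] theorem mul_c3 (x y : Alg K ι) (v : ZMod 3) :
    (x * y).c3 v = x.c0 v * y.c3 v +
      ∑ k, (x.c1 k v * y.c2 k (v + 1) + x.c2 k v * y.c1 k (v + 2)) + x.c3 v * y.c0 v := rfl

theorem mul_assoc' (x y z : Alg K ι) : x * y * z = x * (y * z) := by
  ext
  · simp only [mul_c0]; ring
  · simp only [mul_c0, mul_c1]; ring
  · simp only [mul_c0, mul_c1, mul_c2, z11]; ring
  · simp only [mul_c0, mul_c1, mul_c2, mul_c3, z11, z12, z21, mul_add, add_mul,
      Finset.sum_add_distrib, Finset.sum_mul, Finset.mul_sum]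
    simp only [mul_assoc]
    ring

instance : Ring (Alg K ι) where
  __ := (inferInstance : AddCommGroup (Alg K ι))
  mul_assoc := mul_assoc'
  one_mul x := by ext <;> simp
  mul_one x := by ext <;> simp
  zero_mul x := by ext <;> simp
  mul_zero x := by ext <;> simp
  left_distrib x y z := by
    ext
    · simp only [mul_c0, add_c0, Pi.add_apply]; ring
    · simp only [mul_c1, add_c0, add_c1, Pi.add_apply]; ring
    · simp only [mul_c2, add_c0, add_c1, add_c2, Pi.add_apply]; ring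
    · simp only [mul_c3, add_c0, add_c1, add_c2, add_c3, Pi.add_apply, mul_add,
        Finset.sum_add_distrib]
      ring
  right_distrib x y z := by
    ext
    · simp only [mul_c0, add_c0, Pi.add_apply]; ring
    · simp only [mul_c1, add_c0, add_c1, Pi.add_apply]; ring
    · simp only [mul_c2, add_c0, add_c1, add_c2, Pi.add_apply]; ring
    · simp only [mul_c3, add_c0, add_c1, add_c2, add_c3, Pi.add_apply, add_mul,
        Finset.sum_add_distrib]
      ring

instance : Algebra K (Alg K ι) :=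
  Algebra.ofModule
    (fun c x y => by
      ext v
      · simp only [mul_c0, smul_c0, Pi.smul_apply, smul_eq_mul]; ring
      · simp only [mul_c1, smul_c0, smul_c1, Pi.smul_apply, smul_eq_mul]; ring
      · simp only [mul_c2, smul_c0, smul_c1, smul_c2, Pi.smul_apply, smul_eq_mul]; ring
      · simp only [mul_c3, smul_c0, smul_c1, smul_c2, smul_c3, Pi.smul_apply, smul_eq_mul]
        have h : ∑ k, (c * x.c1 k v * y.c2 k (v + 1) + c * x.c2 k v * y.c1 k (v + 2)) =
            c * ∑ k, (x.c1 k v * y.c2 k (v + 1) + x.c2 k v * y.c1 k (v + 2)) := by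
          rw [Finset.mul_sum]
          exact Finset.sum_congr rfl fun k _ => by ring
        rw [h]; ring)
    (fun c x y => by
      ext v
      · simp only [mul_c0, smul_c0, Pi.smul_apply, smul_eq_mul]; ring
      · simp only [mul_c1, smul_c0, smul_c1, Pi.smul_apply, smul_eq_mul]; ring
      · simp only [mul_c2, smul_c0, smul_c1, smul_c2, Pi.smul_apply, smul_eq_mul]; ring
      · simp only [mul_c3, smul_c0, smul_c1, smul_c2, smul_c3, Pi.smul_apply, smul_eq_mul]
        have h : ∑ k, (x.c1 k v * (c * y.c2 k (v + 1)) + x.c2 k v * (c * y.c1 k (v + 2))) =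
            c * ∑ k, (x.c1 k v * y.c2 k (v + 1) + x.c2 k v * y.c1 k (v + 2)) := by
          rw [Finset.mul_sum]
          exact Finset.sum_congr rfl fun k _ => by ring
        rw [h]; ring)

theorem algebraMap_eq (c : K) : algebraMap K (Alg K ι) c = c • (1 : Alg K ι) :=
  Algebra.algebraMap_eq_smul_one c

instance : Module.Finite K (Alg K ι) := Module.Finite.equiv (equiv (K := K) (ι := ι)).symm

end Alg

end Pool.Agent.LibO1
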