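import Pool.Agent.LibO1.Step

/-!
MP_b19625: all finite-dimensional modules have resolutions of length one.
-/

set_option autoImplicit false
set_option linter.unusedSectionVars false

open scoped RightActions

namespace Pool.Agent.LibO1

open Finset Alg MulOpposite Module

variable {K : Type} [Field K] {ι : Type} [Fintype ι] [DecidableEq ι]

theorem mul_t_comm (a : Alg K ι) (l : ι) : a * t l = t l * (⟨fun v => a.c0 (v + 2),
    fun k v => a.c1 k (v + 2), fun k v => a.c2 k (v + 2), 0⟩ : Alg K ι) := by
  ext
  · simp
  · simp [z12, mul_comm]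
  · simp [z12, mul_comm]
  · simp [z12, mul_comm]

section

variable {X : Type} [AddCommGroup X] [Module (Alg K ι)ᵐᵒᵖ X]

variable (K X) in
/-- The elements on which only the colour `k` acts. -/
def Xk (k : ι) : Submodule (Alg K ι)ᵐᵒᵖ X where
  carrier := {x | ∀ l, l ≠ k → x <• (t l : Alg K ι) = 0}
  add_mem' {x y} hx hy l hl := by
    rw [smul_add, hx l hl, hy l hl, add_zero]
  zero_mem' l _ := smul_zero _
  smul_mem' a x hx l hl := by
    obtain ⟨a, rfl⟩ := MulOpposite.op_surjective a
    rw [rm_rm, mul_t_comm, ← rm_rm, hx l hl, smul_zero]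

theorem mem_Xk {k : ι} {x : X} : x ∈ Xk K X k ↔ ∀ l, l ≠ k → x <• (t l : Alg K ι) = 0 := Iff.rfl

variable (K ι X) in
/-- The sum map. -/
def sumMap : (∀ k : ι, Xk K X k) →ₗ[(Alg K ι)ᵐᵒᵖ] X :=
  ∑ k, (Xk K X k).subtype ∘ₗ LinearMap.proj k

theorem sumMap_apply (z : ∀ k : ι, Xk K X k) : sumMap K ι X z = ∑ k, (z k).1 := by
  rw [sumMap, LinearMap.sum_apply]; rfl

variable [Module K X] [IsScalarTower K (Alg K ι)ᵐᵒᵖ X] [Module.Finite K X]

/-- **The base.** -/
theorem Res.base [Nonempty ι] (hOm : ∀ x : X, x <• (Om : Alg K ι) = 0)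
    (hsum : Function.Surjective (sumMap K ι X)) :
    Res (Alg K ι)ᵐᵒᵖ (GM K ι) X := by
  have hcol : ∀ {P : Type} [AddCommGroup P] [Module (Alg K ι)ᵐᵒᵖ P] (k : ι),
      (∀ l, l ≠ k → ∀ x : P, x <• (t l : Alg K ι) = 0) → Lifts (sumMap K ι X) P := by
    intro P _ _ k hk φ
    refine ⟨LinearMap.single _ _ k ∘ₗ LinearMap.codRestrict (Xk K X k) φ (fun z l hl => by
      rw [← hom_rm, hk l hl, map_zero]), LinearMap.ext fun z => ?_⟩
    rw [LinearMap.comp_apply, sumMap_apply, Finset.sum_eq_single k]
    · simp only [LinearMap.comp_apply, LinearMap.coe_single, Pi.single_eq_same]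
      rfl
    · intro b _ hb
      simp [hb]
    · intro h; exact absurd (Finset.mem_univ k) h
  have hfin : ∀ k : ι, Module.Finite K (Xk K X k) := fun k =>
    (inferInstance : Module.Finite K ((Xk K X k).restrictScalars K))
  refine ⟨∀ k : ι, Xk K X k, inferInstance, inferInstance, sumMap K ι X, ?_, ?_, ?_⟩
  · refine inAdd_pi fun k => inAdd_colour k _ (Xk K X k) ?_ ?_ (Nat.lt_succ_self _)
    · intro l hl y
      exact Subtype.ext (y.2 l hl)
    · intro y
      exact Subtype.ext (hOm y.1)
  · refine lifts_GM ?_ ?_ (fun k => hcol k (fun l hlk x => cyc_t_rm k l hlk x))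
      (fun k => hcol k (fun l hlk x => cyc_t2_rm k l hlk x)) ?_
    · intro φ
      obtain ⟨y, hy⟩ := hsum (φ 1)
      refine ⟨orb y, LinearMap.ext fun z => ?_⟩
      rw [LinearMap.comp_apply, orb_apply, hom_rm, hy, ← hom_rm]
      congr 1
      exact one_mul z
    · intro φ
      obtain ⟨y, hy⟩ := hsum (φ (mkB 1))
      refine ⟨barHom y (funext fun k => Subtype.ext (hOm _)), LinearMap.ext fun z => ?_⟩
      obtain ⟨c, rfl⟩ := mkB_surj z
      rw [LinearMap.comp_apply, barHom_mk, hom_rm, hy, ← hom_rm, mkB_rm, one_mul]
    · obtain ⟨k⟩ := ‹Nonempty ι›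
      exact hcol k (fun l _ x => cyc_Om_rm l x)
  · obtain ⟨k₀⟩ := ‹Nonempty ι›
    have hfin2 : Module.Finite K (LinearMap.ker (sumMap K ι X)) :=
      (inferInstance : Module.Finite K ((LinearMap.ker (sumMap K ι X)).restrictScalars K))
    refine inAdd_colour k₀ _ _ ?_ ?_ (Nat.lt_succ_self _)
    · intro l _ z
      apply Subtype.ext
      funext k
      apply Subtype.ext
      change (z.1 k).1 <• (t l : Alg K ι) = 0
      by_cases hk : l = k
      · subst hk
        have h1 : ∑ m, (z.1 m).1 = 0 := by
          rw [← sumMap_apply]; exact z.2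
        have h2 : (∑ m, (z.1 m).1) <• (t l : Alg K ι) = (z.1 l).1 <• (t l : Alg K ι) := by
          rw [Finset.smul_sum, Finset.sum_eq_single l]
          · intro b _ hb
            exact (z.1 b).2 l (Ne.symm hb)
          · intro h; exact absurd (Finset.mem_univ l) h
        rw [← h2, h1, smul_zero]
      · exact (z.1 k).2 l hk
    · intro z
      exact Subtype.ext (funext fun k => Subtype.ext (hOm _))

end

theorem cyc_E_rm (v : ZMod 3) : InAdd (Alg K ι)ᵐᵒᵖ (GM K ι) (cyc (E v : Alg K ι)) := by
  refine inAdd_A.retract (cyc (E v)).subtype (LinearMap.codRestrict _ (lmul (E v)) fun c => ⟨c, rfl⟩) ?_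
  refine LinearMap.ext fun x => Subtype.ext ?_
  obtain ⟨c, hc⟩ := mem_cyc.1 x.2
  change E v * x.1 = x.1
  rw [← hc, ← mul_assoc, E_mul_self]

/-- **All finite-dimensional modules have `add M`-resolutions of length one.** -/
theorem res_all [Nonempty ι] : ∀ (n : ℕ) (X : Type) [AddCommGroup X] [Module (Alg K ι)ᵐᵒᵖ X]
    [Module K X] [IsScalarTower K (Alg K ι)ᵐᵒᵖ X] [Module.Finite K X],
    finrank K X < n → Res (Alg K ι)ᵐᵒᵖ (GM K ι) X := by
  intro n
  induction n with
  | zero => intro X _ _ _ _ _ h; exact absurd h (Nat.not_lt_zero _)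
  | succ n ih =>
    intro X _ _ _ _ _ hn
    by_cases hA : ∃ x : X, x <• (Om : Alg K ι) ≠ 0
    · -- a projective-injective summand
      obtain ⟨x, hx⟩ := hA
      obtain ⟨v, hv⟩ := exists_comp_ne hx
      set y := x <• (E v : Alg K ι) with hy
      have hE0 : y <• (E v : Alg K ι) = y := by rw [hy, rm_rm, E_mul_self]
      have hEu : ∀ u, u ≠ v → y <• (E u : Alg K ι) = 0 := by
        intro u hu
        rw [hy, rm_rm, E_mul_E, if_neg (Ne.symm hu), rm_zero]
      obtain ⟨φ, hφ⟩ := exists_functional (K := K) _ hv
      have h1 : E v * Phi ι φ y = E v + φ y • (E v * Om) := by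
        ext
        · rename_i w
          by_cases hw : w = v
          · subst hw
            simp only [mul_c0, E_c0, Phi_c0, add_c0, smul_c0, Pi.add_apply, Pi.smul_apply,
              ← rm_rm, hE0, hφ]
            simp
          · simp [hw]
        · rename_i l w
          by_cases hw : w = v
          · subst hw
            simp only [mul_c1, E_c0, Phi_c1, ← rm_rm, hEu (w + 1) (by simp)]
            simp
          · simp [hw]
        · rename_i l w
          by_cases hw : w = v
          · subst hw
            simp only [mul_c2, E_c0, Phi_c2, ← rm_rm, hEu (w + 2)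
              (by simpa using (by decide : (2 : ZMod 3) ≠ 0))]
            simp
          · simp [hw]
        · rename_i w
          by_cases hw : w = v
          · subst hw
            simp only [mul_c3, E_c0, Phi_c3, hE0]
            simp
          · simp [hw]
      set y' := y <• (1 - φ y • Om : Alg K ι) with hy'
      have h2 : E v * Phi ι φ y' = E v := by
        rw [hy', hom_rm]
        change E v * (Phi ι φ y * (1 - φ y • Om)) = E v
        rw [← mul_assoc, h1, mul_sub, mul_one, add_mul, smul_mul_smul_comm, mul_assoc,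
          Om_mul_Om, mul_zero, smul_zero, add_zero, mul_smul_comm, add_sub_cancel_right]
      have h3 : y' <• (E v : Alg K ι) = y' := by
        have h4 : (1 - φ y • Om : Alg K ι) * E v = E v * (1 - φ y • Om) := by
          rw [sub_mul, mul_sub, one_mul, mul_one, smul_mul_assoc, mul_smul_comm, E_mul_Om]
        rw [hy', rm_rm, h4, ← rm_rm, hE0]
      obtain ⟨s, hs⟩ := exists_cyc_hom (E v : Alg K ι) y' (fun c hc => by
        rw [← h3, rm_rm, hc, rm_zero])
      have hr : ∀ z, (lmul (E v) ∘ₗ Phi ι φ) z ∈ cyc (E v : Alg K ι) := fun z => ⟨_, rfl⟩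
      have hfin : Module.Finite K (LinearMap.ker (lmul (E v) ∘ₗ Phi ι φ : X →ₗ[(Alg K ι)ᵐᵒᵖ] Alg K ι)) :=
        (inferInstance : Module.Finite K ((LinearMap.ker
          (lmul (E v) ∘ₗ Phi ι φ : X →ₗ[(Alg K ι)ᵐᵒᵖ] Alg K ι)).restrictScalars K))
      refine Res.split (cyc_E_rm v) s (LinearMap.codRestrict _ _ hr) ?_ ?_
      · refine LinearMap.ext fun ⟨z, hz⟩ => ?_
        obtain ⟨c, rfl⟩ := mem_cyc.1 hz
        apply Subtype.ext
        refine (congrArg (lmul (E v) ∘ₗ Phi ι φ) (hs c hz)).trans ?_
        rw [hom_rm]
        change (E v * Phi ι φ y') * c = E v * c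
        rw [h2]
      · rw [LinearMap.ker_codRestrict]
        refine ih _ ?_
        have h5 := finrank_ker_lt (K := K) (lmul (E v) ∘ₗ Phi ι φ) y' (by
          change E v * Phi ι φ y' ≠ 0
          rw [h2]
          intro h6
          have := congrFun (congrArg Alg.c0 h6) v
          simp at this)
        omega
    · push Not at hA
      by_cases hS : Function.Surjective (sumMap K ι X)
      · exact Res.base hA hS
      · -- the inductive step
        have hlt : LinearMap.range ((sumMap K ι X).restrictScalars K) < ⊤ := by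
          rw [lt_top_iff_ne_top]
          intro h
          have h' : Function.Surjective ((sumMap K ι X).restrictScalars K) :=
            LinearMap.range_eq_top.1 h
          exact hS h'
        obtain ⟨ψ, hψ0, hψ⟩ := Submodule.exists_le_ker_of_lt_top _ hlt
        have hψX : ∀ (k : ι) (x : X), x ∈ Xk K X k → ψ x = 0 := by
          intro k x hx
          apply LinearMap.mem_ker.1
          apply hψ
          refine ⟨Pi.single k ⟨x, hx⟩, ?_⟩
          change sumMap K ι X (Pi.single k ⟨x, hx⟩) = x
          rw [sumMap_apply, Finset.sum_eq_single k]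
          · simp
          · intro b _ hb
            simp [hb]
          · intro h; exact absurd (Finset.mem_univ k) h
        obtain ⟨x, hx⟩ : ∃ x, ψ x ≠ 0 := by
          by_contra h
          push Not at h
          exact hψ0 (LinearMap.ext h)
        obtain ⟨v, hv⟩ : ∃ v, ψ (x <• (E v : Alg K ι)) ≠ 0 := by
          by_contra h
          push Not at h
          apply hx
          rw [← sum_rm_E (K := K) (ι := ι) x, map_sum]
          exact Finset.sum_eq_zero fun v _ => h v
        have key : ∀ (z : X) (a : Alg K ι), ψ ((z <• a) <• (E v : Alg K ι)) =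
            a.c0 v * ψ (z <• (E v : Alg K ι)) := by
          intro z a
          have e1 : ∀ k, ψ (z <• (E (v + 2) * t k : Alg K ι)) = 0 := by
            intro k
            refine hψX k _ fun l hl => ?_
            rw [rm_rm, mul_assoc, t_mul_t (Ne.symm hl), mul_zero, rm_zero]
          have e2 : ∀ k, ψ (z <• (E (v + 1) * t2 k : Alg K ι)) = 0 := by
            intro k
            refine hψX k _ fun l hl => ?_
            rw [rm_rm, mul_assoc, t2_mul_t_ne (Ne.symm hl), mul_zero, rm_zero]
          have e3 : z <• (E v * Om : Alg K ι) = 0 := by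
            rw [← rm_rm, hA]
          rw [rm_rm, mul_E, rm_add, rm_add, rm_add, rm_sum, rm_sum, rm_smul, rm_smul, e3]
          simp only [rm_smul, map_add, map_sum, map_smul, e1, e2]
          simp
        set τ := (ψ (x <• (E v : Alg K ι)))⁻¹ • (x <• (E v : Alg K ι)) with hτ
        have hτ1 : ψ (τ <• (E v : Alg K ι)) = 1 := by
          rw [hτ, smul_rm, rm_rm, E_mul_self, map_smul, smul_eq_mul, inv_mul_cancel₀ hv]
        let X' : Submodule (Alg K ι)ᵐᵒᵖ X :=
          { carrier := {z | ψ (z <• (E v : Alg K ι)) = 0}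
            add_mem' := fun {a b} ha hb => by
              change ψ ((a + b) <• (E v : Alg K ι)) = 0
              rw [smul_add, map_add, ha, hb, add_zero]
            zero_mem' := by
              change ψ ((0 : X) <• (E v : Alg K ι)) = 0
              rw [smul_zero, map_zero]
            smul_mem' := fun a z hz => by
              obtain ⟨a, rfl⟩ := MulOpposite.op_surjective a
              change ψ ((z <• a) <• (E v : Alg K ι)) = 0
              rw [key, hz, mul_zero] }
        have hX' : ∀ z, z ∈ X' ↔ ψ (z <• (E v : Alg K ι)) = 0 := fun z => Iff.rfl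
        have hfin : Module.Finite K X' :=
          (inferInstance : Module.Finite K (X'.restrictScalars K))
        have hlt' : finrank K X' < finrank K X := by
          have h5 : X'.restrictScalars K ≠ ⊤ := by
            intro h6
            have h7 : τ ∈ X'.restrictScalars K := by rw [h6]; trivial
            have h8 : ψ (τ <• (E v : Alg K ι)) = 0 := h7
            rw [hτ1] at h8
            exact one_ne_zero h8
          exact Submodule.finrank_lt h5
        refine Res.step X' (ih X' (by omega)) v τ hA ?_ ?_ ?_
        · intro c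
          rw [hX', key, hτ1, mul_one]
        · intro z
          refine ⟨ψ (z <• (E v : Alg K ι)) • 1, ?_⟩
          rw [hX', smul_sub, map_sub, key, hτ1]
          simp
        · intro k z hz
          rw [hX']
          refine hψX k _ fun l hl => ?_
          rw [rm_rm, E_mul_t, ← rm_rm, hz l hl, smul_zero]

end Pool.Agent.LibO1
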