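import Pool.Agent.LibO1.Alg

/-!
MP_b19625: the standard elements of the algebra and their products.
-/

set_option autoImplicit false
set_option linter.unusedSectionVars false

namespace Pool.Agent.LibO1

open Finset

namespace Alg

variable {K : Type} [Field K] {ι : Type}

section

variable [DecidableEq ι]

/-- The idempotent of the vertex `v`. -/
def E (v : ZMod 3) : Alg K ι := ⟨Pi.single v 1, 0, 0, 0⟩

/-- The sum of the arrows of colour `k`. -/
def t (k : ι) : Alg K ι := ⟨0, Pi.single k 1, 0, 0⟩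

/-- The sum of the paths of length two of colour `k`. -/
def t2 (k : ι) : Alg K ι := ⟨0, 0, Pi.single k 1, 0⟩

/-- The sum of the socle elements. -/
def Om : Alg K ι := ⟨0, 0, 0, 1⟩

@[simp] theorem E_c0 (v u : ZMod 3) : (E v : Alg K ι).c0 u = if u = v then 1 else 0 := by
  simp [E, Pi.single_apply]
@[simp] theorem E_c1 (v : ZMod 3) : (E v : Alg K ι).c1 = 0 := rfl
@[simp] theorem E_c2 (v : ZMod 3) : (E v : Alg K ι).c2 = 0 := rfl
@[simp] theorem E_c3 (v : ZMod 3) : (E v : Alg K ι).c3 = 0 := rfl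
@[simp] theorem t_c0 (k : ι) : (t k : Alg K ι).c0 = 0 := rfl
@[simp] theorem t_c1 (k l : ι) (u : ZMod 3) : (t k : Alg K ι).c1 l u = if l = k then 1 else 0 := by
  by_cases h : l = k
  · subst h; simp [t]
  · simp [t, h]
@[simp] theorem t_c2 (k : ι) : (t k : Alg K ι).c2 = 0 := rfl
@[simp] theorem t_c3 (k : ι) : (t k : Alg K ι).c3 = 0 := rfl
@[simp] theorem t2_c0 (k : ι) : (t2 k : Alg K ι).c0 = 0 := rfl
@[simp] theorem t2_c1 (k : ι) : (t2 k : Alg K ι).c1 = 0 := rfl
@[simp] theorem t2_c2 (k l : ι) (u : ZMod 3) :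
    (t2 k : Alg K ι).c2 l u = if l = k then 1 else 0 := by
  by_cases h : l = k
  · subst h; simp [t2]
  · simp [t2, h]
@[simp] theorem t2_c3 (k : ι) : (t2 k : Alg K ι).c3 = 0 := rfl
@[simp] theorem Om_c0 : (Om : Alg K ι).c0 = 0 := rfl
@[simp] theorem Om_c1 : (Om : Alg K ι).c1 = 0 := rfl
@[simp] theorem Om_c2 : (Om : Alg K ι).c2 = 0 := rfl
@[simp] theorem Om_c3 (v : ZMod 3) : (Om : Alg K ι).c3 v = 1 := rfl

variable [Fintype ι]

theorem E_mul_E (v u : ZMod 3) : (E v * E u : Alg K ι) = if v = u then E v else 0 := by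
  split_ifs with h
  · subst h; ext <;> simp
  · ext w
    · simp only [mul_c0, E_c0, zero_c0, Pi.zero_apply]
      by_cases h1 : w = v
      · subst h1; simp [h]
      · simp [h1]
    all_goals simp

theorem E_mul_self (v : ZMod 3) : (E v * E v : Alg K ι) = E v := by simp [E_mul_E]

theorem sum_E : ∑ v, (E v : Alg K ι) = 1 := by
  have h : ∀ s : Finset (ZMod 3), (∑ v ∈ s, (E v : Alg K ι)) =
      ⟨fun u => if u ∈ s then 1 else 0, 0, 0, 0⟩ := by
    intro s
    induction s using Finset.induction_on with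
    | empty => ext <;> simp
    | insert a s ha ih =>
      rw [Finset.sum_insert ha, ih]
      ext u
      · simp only [add_c0, Pi.add_apply, E_c0, mem_insert]
        by_cases h1 : u = a
        · subst h1; simp [ha]
        · simp [h1]
      all_goals simp
  rw [h]
  ext <;> simp

theorem E_mul_t (v : ZMod 3) (k : ι) : (E v * t k : Alg K ι) = t k * E (v + 1) := by
  ext l u
  · simp
  · by_cases h1 : l = k <;> by_cases h2 : u = v <;> simp [h1, h2]
  · simp
  · simp

theorem t_mul_E (v : ZMod 3) (k : ι) : (t k * E v : Alg K ι) = E (v + 2) * t k := by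
  rw [E_mul_t, z21]

theorem E_mul_t2 (v : ZMod 3) (k : ι) : (E v * t2 k : Alg K ι) = t2 k * E (v + 2) := by
  ext l u
  · simp
  · simp
  · by_cases h1 : l = k <;> by_cases h2 : u = v <;> simp [h1, h2]
  · simp

theorem E_mul_Om (v : ZMod 3) : (E v * Om : Alg K ι) = Om * E v := by
  ext <;> simp

theorem t_mul_t {k l : ι} (h : k ≠ l) : (t k * t l : Alg K ι) = 0 := by
  ext m v
  · simp
  · simp
  · simp only [mul_c2, t_c0, t_c1, t_c2, Pi.zero_apply, zero_mul, zero_add, add_zero, zero_c2]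
    by_cases h1 : m = k
    · subst h1; simp [h]
    · simp [h1]
  · simp

theorem t_mul_self (k : ι) : (t k * t k : Alg K ι) = t2 k := by
  ext m v <;> simp

theorem t_mul_t2 (k : ι) : (t k * t2 k : Alg K ι) = Om := by
  ext m v <;> simp

theorem t2_mul_t (k : ι) : (t2 k * t k : Alg K ι) = Om := by
  ext m v <;> simp

theorem t2_mul_t2 (k : ι) : (t2 k * t2 k : Alg K ι) = 0 := by
  ext m v <;> simp

theorem t_mul_t2_ne {k l : ι} (h : k ≠ l) : (t k * t2 l : Alg K ι) = 0 := by
  rw [← t_mul_self, ← mul_assoc, t_mul_t h, zero_mul]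

theorem t2_mul_t_ne {k l : ι} (h : k ≠ l) : (t2 k * t l : Alg K ι) = 0 := by
  rw [← t_mul_self, mul_assoc, t_mul_t h, mul_zero]

theorem t_mul_Om (k : ι) : (t k * Om : Alg K ι) = 0 := by
  ext m v <;> simp

theorem Om_mul_t (k : ι) : (Om * t k : Alg K ι) = 0 := by
  ext m v <;> simp

theorem Om_mul_Om : (Om * Om : Alg K ι) = 0 := by
  ext m v <;> simp

theorem t_cube (k : ι) : (t k * t k * t k : Alg K ι) = Om := by
  rw [t_mul_self, t2_mul_t]

section sums

variable {α : Type}

theorem sum_c0 (s : Finset α) (f : α → Alg K ι) : (∑ i ∈ s, f i).c0 = ∑ i ∈ s, (f i).c0 :=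
  map_sum (AddMonoidHom.mk' (fun x : Alg K ι => x.c0) fun _ _ => rfl) f s
theorem sum_c1 (s : Finset α) (f : α → Alg K ι) : (∑ i ∈ s, f i).c1 = ∑ i ∈ s, (f i).c1 :=
  map_sum (AddMonoidHom.mk' (fun x : Alg K ι => x.c1) fun _ _ => rfl) f s
theorem sum_c2 (s : Finset α) (f : α → Alg K ι) : (∑ i ∈ s, f i).c2 = ∑ i ∈ s, (f i).c2 :=
  map_sum (AddMonoidHom.mk' (fun x : Alg K ι => x.c2) fun _ _ => rfl) f s
theorem sum_c3 (s : Finset α) (f : α → Alg K ι) : (∑ i ∈ s, f i).c3 = ∑ i ∈ s, (f i).c3 :=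
  map_sum (AddMonoidHom.mk' (fun x : Alg K ι => x.c3) fun _ _ => rfl) f s

end sums

theorem Et_c1 (v u : ZMod 3) (k l : ι) :
    (E v * t k : Alg K ι).c1 l u = if u = v then (if l = k then 1 else 0) else 0 := by
  by_cases h1 : l = k <;> by_cases h2 : u = v <;> simp [h1, h2]

theorem Et2_c2 (v u : ZMod 3) (k l : ι) :
    (E v * t2 k : Alg K ι).c2 l u = if u = v then (if l = k then 1 else 0) else 0 := by
  by_cases h1 : l = k <;> by_cases h2 : u = v <;> simp [h1, h2]

/-- Expansion of an element in the standard basis. -/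
theorem expand (x : Alg K ι) :
    x = ∑ v, x.c0 v • E v + ∑ v, ∑ k, x.c1 k v • (E v * t k) +
      ∑ v, ∑ k, x.c2 k v • (E v * t2 k) + ∑ v, x.c3 v • (E v * Om) := by
  ext
  · rename_i u
    simp [sum_c0, Finset.sum_apply]
  · rename_i l u
    simp only [add_c1, sum_c1, Pi.add_apply, Finset.sum_apply, smul_c1, Pi.smul_apply, Et_c1,
      smul_eq_mul]
    simp
  · rename_i l u
    simp only [add_c2, sum_c2, Pi.add_apply, Finset.sum_apply, smul_c2, Pi.smul_apply, Et2_c2,
      smul_eq_mul]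
    simp
  · rename_i u
    simp [sum_c3, Finset.sum_apply]

theorem mul_EOm (a : Alg K ι) (v : ZMod 3) : a * (E v * Om) = a.c0 v • (E v * Om) := by
  ext
  · simp
  · simp
  · simp
  · rename_i u
    by_cases h2 : u = v
    · subst h2; simp
    · simp [h2]

theorem mul_Et2 (a : Alg K ι) (v : ZMod 3) (k : ι) :
    a * (E (v + 1) * t2 k) = a.c0 (v + 1) • (E (v + 1) * t2 k) + a.c1 k v • (E v * Om) := by
  ext
  · simp
  · simp
  · rename_i l u
    by_cases h2 : u = v + 1
    · subst h2; simp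
    · simp [h2]
  · rename_i u
    by_cases h2 : u = v
    · subst h2; simp
    · simp [h2]

theorem mul_Et (a : Alg K ι) (v : ZMod 3) (k : ι) :
    a * (E (v + 2) * t k) = a.c0 (v + 2) • (E (v + 2) * t k) +
      a.c1 k (v + 1) • (E (v + 1) * t2 k) + a.c2 k v • (E v * Om) := by
  ext
  · simp
  · rename_i l u
    by_cases h2 : u = v + 2
    · subst h2; simp
    · simp [h2]
  · rename_i l u
    have h : (u + 1 = v + 2) ↔ (u = v + 1) := by
      rw [← z11, add_left_inj]
    by_cases h2 : u = v + 1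
    · subst h2
      by_cases h3 : l = k
      · subst h3; simp [z11]
      · simp [h3]
    · simp [h2, h]
  · rename_i u
    by_cases h2 : u = v
    · subst h2; simp
    · simp [h2]

theorem mul_E (a : Alg K ι) (v : ZMod 3) :
    a * E v = a.c0 v • E v + ∑ k, a.c1 k (v + 2) • (E (v + 2) * t k) +
      ∑ k, a.c2 k (v + 1) • (E (v + 1) * t2 k) + a.c3 v • (E v * Om) := by
  ext
  · rename_i u
    by_cases h2 : u = v
    · subst h2; simp [sum_c0]
    · simp [h2, sum_c0]
  · rename_i l u
    have h : (u + 1 = v) ↔ (u = v + 2) := by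
      constructor
      · rintro rfl; rw [z12]
      · rintro rfl; rw [z21]
    by_cases h2 : u = v + 2
    · subst h2
      simp [sum_c1, z21]
    · simp [sum_c1, h, h2]
  · rename_i l u
    have h : (u + 2 = v) ↔ (u = v + 1) := by
      constructor
      · rintro rfl; rw [z21]
      · rintro rfl; rw [z12]
    by_cases h2 : u = v + 1
    · subst h2
      simp [sum_c2, z12]
    · simp [sum_c2, h, h2]
  · rename_i u
    by_cases h2 : u = v
    · subst h2; simp [sum_c3]
    · simp [h2, sum_c3]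

end

end Alg

end Pool.Agent.LibO1
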