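import Pool.Agent.LibO1.Fun
import Pool.Agent.LibO1.Add

/-!
MP_b19625: cyclic right ideals and splittings.
-/

set_option autoImplicit false
set_option linter.unusedSectionVars false

open scoped RightActions

namespace Pool.Agent.LibO1

open Finset Alg MulOpposite

section

variable {R : Type} [Ring R] {M X Y Z P : Type} [AddCommGroup M] [Module R M] [AddCommGroup X]
  [Module R X] [AddCommGroup Y] [Module R Y] [AddCommGroup Z] [Module R Z] [AddCommGroup P]
  [Module R P]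

/-- Factorisation through a surjection. -/
theorem exists_factor (p : P →ₗ[R] Z) (hp : Function.Surjective p) (q : P →ₗ[R] Y)
    (h : LinearMap.ker p ≤ LinearMap.ker q) : ∃ s : Z →ₗ[R] Y, s ∘ₗ p = q := by
  let e₀ := p.quotKerEquivOfSurjective hp
  refine ⟨(LinearMap.ker p).liftQ q h ∘ₗ e₀.symm.toLinearMap, ?_⟩
  ext x
  have h2 : e₀.symm (p x) = Submodule.Quotient.mk x := by
    rw [LinearEquiv.symm_apply_eq]
    rfl
  simp only [LinearMap.comp_apply, LinearEquiv.coe_coe, h2]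
  rfl

/-- If `r : Y → Z` has a section then `Y ∈ add M` as soon as `Z, ker r ∈ add M`. -/
theorem inAdd_of_split (r : Y →ₗ[R] Z) (s : Z →ₗ[R] Y) (h : r ∘ₗ s = LinearMap.id)
    (h1 : InAdd R M Z) (h2 : InAdd R M (LinearMap.ker r)) : InAdd R M Y := by
  have hrs : ∀ z, r (s z) = z := fun z => LinearMap.congr_fun h z
  refine (inAdd_prod h1 h2).retract
    (r.prod (LinearMap.codRestrict (LinearMap.ker r) (LinearMap.id - s ∘ₗ r) (fun y => by
      rw [LinearMap.mem_ker, LinearMap.sub_apply, map_sub, LinearMap.comp_apply, hrs]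
      exact sub_self _)))
    (s.coprod (LinearMap.ker r).subtype) ?_
  ext y
  simp

end

/-- Left multiplication, as an endomorphism of the right module `A`. -/
def lmul {A : Type} [Ring A] (a : A) : A →ₗ[Aᵐᵒᵖ] A where
  toFun c := a * c
  map_add' _ _ := mul_add _ _ _
  map_smul' b c := (mul_assoc a c b.unop).symm

@[simp] theorem lmul_apply {A : Type} [Ring A] (a c : A) : lmul a c = a * c := rfl

/-- The right ideal `a A`. -/
def cyc {A : Type} [Ring A] (a : A) : Submodule Aᵐᵒᵖ A := LinearMap.range (lmul a)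

theorem mem_cyc {A : Type} [Ring A] {a x : A} : x ∈ cyc a ↔ ∃ c, a * c = x := Iff.rfl

/-- The homomorphism `A → X`, `c ↦ x c`. -/
def orb {A : Type} [Ring A] {X : Type} [AddCommGroup X] [Module Aᵐᵒᵖ X] (x : X) :
    A →ₗ[Aᵐᵒᵖ] X where
  toFun c := x <• c
  map_add' a b := by rw [op_add, add_smul]
  map_smul' b c := by
    change op (c * b.unop) • x = b • op c • x
    rw [op_mul, mul_smul, op_unop]

@[simp] theorem orb_apply {A : Type} [Ring A] {X : Type} [AddCommGroup X] [Module Aᵐᵒᵖ X] (x : X)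
    (c : A) : orb x c = x <• c := rfl

theorem hom_orb {A : Type} [Ring A] {X : Type} [AddCommGroup X] [Module Aᵐᵒᵖ X]
    (φ : A →ₗ[Aᵐᵒᵖ] X) : φ = orb (φ 1) := by
  ext
  simp

/-- A map out of a cyclic right ideal. -/
theorem exists_cyc_hom {A : Type} [Ring A] {Y : Type} [AddCommGroup Y] [Module Aᵐᵒᵖ Y] (a : A)
    (y : Y) (h : ∀ c, a * c = 0 → y <• c = 0) :
    ∃ s : cyc a →ₗ[Aᵐᵒᵖ] Y, ∀ c (hc : a * c ∈ cyc a), s ⟨a * c, hc⟩ = y <• c := by
  obtain ⟨s, hs⟩ := exists_factor (lmul a).rangeRestrict (lmul a).surjective_rangeRestrict (orb y)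
    (by
      intro c hc
      have h1 : a * c = 0 := congrArg Subtype.val (LinearMap.mem_ker.1 hc)
      exact h c h1)
  exact ⟨s, fun c hc => LinearMap.congr_fun hs c⟩

/-- Splitting off a cyclic right ideal. -/
theorem inAdd_of_cyc {A : Type} [Ring A] {M Y : Type} [AddCommGroup M] [Module Aᵐᵒᵖ M]
    [AddCommGroup Y] [Module Aᵐᵒᵖ Y] (a : A) (y : Y) (r : Y →ₗ[Aᵐᵒᵖ] A) (hr : r y = a)
    (hra : ∀ z, r z ∈ cyc a) (h : ∀ c, a * c = 0 → y <• c = 0)
    (h1 : InAdd Aᵐᵒᵖ M (cyc a)) (h2 : InAdd Aᵐᵒᵖ M (LinearMap.ker r)) : InAdd Aᵐᵒᵖ M Y := by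
  obtain ⟨s, hs⟩ := exists_cyc_hom a y h
  refine inAdd_of_split (LinearMap.codRestrict (cyc a) r hra) s ?_ h1 ?_
  · refine LinearMap.ext fun ⟨x, hx⟩ => ?_
    obtain ⟨c, rfl⟩ := mem_cyc.1 hx
    apply Subtype.ext
    refine (congrArg r (hs c hx)).trans ?_
    rw [map_smul, hr]
    rfl
  · rwa [LinearMap.ker_codRestrict]

end Pool.Agent.LibO1
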