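import Mathlib

/-!
MP_b19625: definitions. Right modules over a ring `A` are modules over `Aᵐᵒᵖ`; the notions below are
defined for left modules over a ring `R` and used with `R = Aᵐᵒᵖ`. For a finite-dimensional algebra,
the finite-dimensional modules are the finitely generated ones.
-/

set_option autoImplicit false

namespace Pool.Agent.LibO1

section Mod

variable (R : Type) [Ring R]

/-- `Ext¹(X, Y) = 0`: every short exact sequence `0 → Y → E → X → 0` splits. -/
def ExtZero (X Y : Type) [AddCommGroup X] [Module R X] [AddCommGroup Y] [Module R Y] : Prop :=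
  ∀ (E : Type) [AddCommGroup E] [Module R E] (f : Y →ₗ[R] E) (g : E →ₗ[R] X),
    Function.Injective f → Function.Surjective g → LinearMap.range f = LinearMap.ker g →
    ∃ h : X →ₗ[R] E, g ∘ₗ h = LinearMap.id

/-- `X ∈ add M`: `X` is a direct summand of `Mⁿ` for some `n`. -/
def InAdd (M X : Type) [AddCommGroup M] [Module R M] [AddCommGroup X] [Module R X] : Prop :=
  ∃ (n : ℕ) (i : X →ₗ[R] (Fin n → M)) (p : (Fin n → M) →ₗ[R] X), p ∘ₗ i = LinearMap.id

/-- `X` is indecomposable. -/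
def Indec (X : Type) [AddCommGroup X] [Module R X] : Prop :=
  Nontrivial X ∧ ∀ U V : Submodule R X, IsCompl U V → U = ⊥ ∨ V = ⊥

/-- `size M ≥ N`: `M` has `N` pairwise non-isomorphic indecomposable direct summands. -/
def SizeGE (M : Type) [AddCommGroup M] [Module R M] (N : ℕ) : Prop :=
  ∃ X : Fin N → Submodule R M, (∀ i, ∃ Y, IsCompl (X i) Y) ∧ (∀ i, Indec R (X i)) ∧
    ∀ i j, i ≠ j → ¬ Nonempty (X i ≃ₗ[R] X j)

/-- `Y` has projective dimension at most `d`: there is an exact sequence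
`0 → P → R^{n₁} → ... → R^{n_d} → Y → 0` with `P` projective. -/
def PdLE : ℕ → ∀ (Y : Type) [AddCommGroup Y] [Module R Y], Prop
  | 0, Y, _, _ => Module.Projective R Y
  | d + 1, Y, _, _ => ∃ (n : ℕ) (f : (Fin n → R) →ₗ[R] Y), Function.Surjective f ∧
      PdLE d (LinearMap.ker f)

/-- The global dimension of `R` is at most `d` (finitely generated modules). -/
def GlDimLE (d : ℕ) : Prop :=
  ∀ (Y : Type) [AddCommGroup Y] [Module R Y], Module.Finite R Y → PdLE R d Y

/-- `M` is a generator: `R ∈ add M`. -/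
def IsGen (M : Type) [AddCommGroup M] [Module R M] : Prop := InAdd R M R

/-- `M` is a cogenerator: every finitely generated module embeds in `Mⁿ` for some `n`. -/
def IsCogen (M : Type) [AddCommGroup M] [Module R M] : Prop :=
  ∀ (X : Type) [AddCommGroup X] [Module R X], Module.Finite R X →
    ∃ (n : ℕ) (f : X →ₗ[R] (Fin n → M)), Function.Injective f

/-- Two maximal left ideals `I`, `J` give isomorphic simple modules `R / I`, `R / J`. -/
def simpleSetoid : Setoid {I : Ideal R // I.IsMaximal} where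
  r I J := Nonempty ((R ⧸ I.1) ≃ₗ[R] (R ⧸ J.1))
  iseqv := ⟨fun _ => ⟨LinearEquiv.refl _ _⟩, fun ⟨e⟩ => ⟨e.symm⟩, fun ⟨e⟩ ⟨f⟩ => ⟨e.trans f⟩⟩

/-- The number of isomorphism classes of simple modules. -/
noncomputable def numSimples : ℕ := Nat.card (Quotient (simpleSetoid R))

end Mod

section Alg

variable (K : Type) [Field K] (A : Type) [Ring A] [Algebra K A]

/-- `A` is a symmetric algebra: there is a symmetrizing linear form. -/
def IsSym : Prop :=
  ∃ l : A →ₗ[K] K, (∀ x y, l (x * y) = l (y * x)) ∧ ∀ x, (∀ y, l (x * y) = 0) → x = 0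

/-- `A` is gendo-symmetric: `A ≅ End_B(M)` for a finite-dimensional symmetric algebra `B` and a
finite-dimensional generator `M` of the category of right `B`-modules. -/
def IsGendoSym : Prop :=
  ∃ (B : Type) (_ : Ring B) (_ : Algebra K B) (M : Type) (_ : AddCommGroup M)
    (_ : Module Bᵐᵒᵖ M), Module.Finite K B ∧ IsSym K B ∧ Module.Finite Bᵐᵒᵖ M ∧
      IsGen Bᵐᵒᵖ M ∧
      ∃ e : A ≃+* Module.End Bᵐᵒᵖ M, ∀ (c : K) (m : M),
        e (algebraMap K A c) m = MulOpposite.op (algebraMap K B c) • m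

end Alg

section Ring

variable (A : Type) [Ring A]

/-- The category of right `A`-modules has a maximal `1`-orthogonal module. -/
def HasMaxOrth : Prop :=
  ∃ (M : Type) (_ : AddCommGroup M) (_ : Module Aᵐᵒᵖ M), Module.Finite Aᵐᵒᵖ M ∧
    ∀ (X : Type) [AddCommGroup X] [Module Aᵐᵒᵖ X], Module.Finite Aᵐᵒᵖ X →
      (InAdd Aᵐᵒᵖ M X ↔ ExtZero Aᵐᵒᵖ M X) ∧ (InAdd Aᵐᵒᵖ M X ↔ ExtZero Aᵐᵒᵖ X M)

/-- The representation dimension of `A` is at most `d`: there is a generator-cogenerator `M` such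
that `End_A(M)` has global dimension at most `d` (right modules). -/
def RepDimLE (d : ℕ) : Prop :=
  ∃ (M : Type) (_ : AddCommGroup M) (_ : Module Aᵐᵒᵖ M), Module.Finite Aᵐᵒᵖ M ∧
    IsGen Aᵐᵒᵖ M ∧ IsCogen Aᵐᵒᵖ M ∧ GlDimLE (Module.End Aᵐᵒᵖ M)ᵐᵒᵖ d

/-- `o₁(A) ≥ N`: there is a finite-dimensional right `A`-module `M` with at least `N` pairwise
non-isomorphic indecomposable summands such that `Ext¹(X, Y) = 0` for all `X, Y ∈ add M`. -/
def OneGE (N : ℕ) : Prop :=
  ∃ (M : Type) (_ : AddCommGroup M) (_ : Module Aᵐᵒᵖ M), Module.Finite Aᵐᵒᵖ M ∧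
    (∀ (X Y : Type) [AddCommGroup X] [Module Aᵐᵒᵖ X] [AddCommGroup Y] [Module Aᵐᵒᵖ Y],
      InAdd Aᵐᵒᵖ M X → InAdd Aᵐᵒᵖ M Y → ExtZero Aᵐᵒᵖ X Y) ∧ SizeGE Aᵐᵒᵖ M N

end Ring

/-- The class `𝒞` of the problem: finite-dimensional, connected, non-semisimple, gendo-symmetric
algebras with a maximal `1`-orthogonal module or of representation dimension at most `3`. -/
structure InC (K : Type) [Field K] (A : Type) [Ring A] [Algebra K A] : Prop where
  fin : Module.Finite K A
  nontriv : Nontrivial A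
  conn : ∀ e : A, e * e = e → (∀ a, e * a = a * e) → e = 0 ∨ e = 1
  notSemisimple : ¬ IsSemisimpleRing A
  gendo : IsGendoSym K A
  cond : HasMaxOrth A ∨ RepDimLE A 3

end Pool.Agent.LibO1
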