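import Pool.Agent.LibO1.Add

/-!
MP_b19625: additivity of the vanishing of `Ext¹`.
-/

set_option autoImplicit false

namespace Pool.Agent.LibO1

variable {R : Type} [Ring R] {X Y X' Y' E : Type} [AddCommGroup X] [Module R X] [AddCommGroup Y]
  [Module R Y] [AddCommGroup X'] [Module R X'] [AddCommGroup Y'] [Module R Y'] [AddCommGroup E]
  [Module R E]

/-- Maps `X' → X` lift to an extension of `X` by `Y`. -/
theorem ExtZero.lift (h : ExtZero R X' Y) {f : Y →ₗ[R] E} {g : E →ₗ[R] X}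
    (hf : Function.Injective f) (hg : Function.Surjective g)
    (hfg : LinearMap.range f = LinearMap.ker g) (p : X' →ₗ[R] X) :
    ∃ σ : X' →ₗ[R] E, g ∘ₗ σ = p := by
  let D : (E × X') →ₗ[R] X := g ∘ₗ LinearMap.fst R E X' - p ∘ₗ LinearMap.snd R E X'
  have hD : ∀ z, z ∈ LinearMap.ker D ↔ g z.1 = p z.2 := by
    intro z
    rw [LinearMap.mem_ker]
    exact sub_eq_zero
  have hgf : ∀ y, g (f y) = 0 := fun y => by
    have : f y ∈ LinearMap.ker g := hfg ▸ LinearMap.mem_range_self f y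
    exact this
  let f' : Y →ₗ[R] LinearMap.ker D :=
    LinearMap.codRestrict _ (LinearMap.inl R E X' ∘ₗ f) (fun y => by
      rw [hD]
      simp [hgf])
  let g' : LinearMap.ker D →ₗ[R] X' := LinearMap.snd R E X' ∘ₗ (LinearMap.ker D).subtype
  obtain ⟨σ, hσ⟩ := h (LinearMap.ker D) f' g'
    (fun y z hyz => hf (congrArg (fun w => (w : E × X').1) (congrArg Subtype.val hyz)))
    (fun x => by
      obtain ⟨e, he⟩ := hg (p x)
      exact ⟨⟨(e, x), (hD _).2 he⟩, rfl⟩)
    (by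
      ext ⟨z, hz⟩
      rw [LinearMap.mem_range, LinearMap.mem_ker]
      constructor
      · rintro ⟨y, hy⟩
        rw [← hy]
        rfl
      · intro hz2
        have hz3 : z.2 = 0 := hz2
        have hz1 : g z.1 = 0 := by rw [(hD z).1 hz, hz3, map_zero]
        have : z.1 ∈ LinearMap.range f := by rw [hfg]; exact hz1
        obtain ⟨y, hy⟩ := this
        exact ⟨y, Subtype.ext (Prod.ext hy hz3.symm)⟩)
  refine ⟨LinearMap.fst R E X' ∘ₗ (LinearMap.ker D).subtype ∘ₗ σ, ?_⟩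
  ext x
  have h1 := (hD _).1 (σ x).2
  have h2 := LinearMap.congr_fun hσ x
  change g (σ x).1.1 = p x
  rw [h1]
  exact congrArg p h2

/-- A retraction from a section. -/
theorem exists_retraction {f : Y →ₗ[R] E} {g : E →ₗ[R] X}
    (hf : Function.Injective f) (hfg : LinearMap.range f = LinearMap.ker g) {h : X →ₗ[R] E}
    (hh : g ∘ₗ h = LinearMap.id) : ∃ ρ : E →ₗ[R] Y, ρ ∘ₗ f = LinearMap.id := by
  have h1 : ∀ e, e - h (g e) ∈ LinearMap.range f := by
    intro e
    rw [hfg, LinearMap.mem_ker, map_sub]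
    have := LinearMap.congr_fun hh (g e)
    simp only [LinearMap.comp_apply, LinearMap.id_apply] at this
    rw [this, sub_self]
  let e₀ := LinearEquiv.ofInjective f hf
  refine ⟨e₀.symm.toLinearMap ∘ₗ LinearMap.codRestrict (LinearMap.range f)
    (LinearMap.id - h ∘ₗ g) h1, ?_⟩
  ext y
  have h2 : g (f y) = 0 := by
    have : f y ∈ LinearMap.ker g := hfg ▸ LinearMap.mem_range_self f y
    exact this
  apply e₀.injective
  simp only [LinearMap.comp_apply, LinearEquiv.coe_coe, LinearEquiv.apply_symm_apply,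
    LinearMap.id_apply]
  apply Subtype.ext
  change f y - h (g (f y)) = f y
  rw [h2, map_zero, sub_zero]

/-- A section from a retraction. -/
theorem exists_section {f : Y →ₗ[R] E} {g : E →ₗ[R] X} (hg : Function.Surjective g)
    (hfg : LinearMap.range f = LinearMap.ker g) {ρ : E →ₗ[R] Y}
    (hρ : ρ ∘ₗ f = LinearMap.id) : ∃ h : X →ₗ[R] E, g ∘ₗ h = LinearMap.id := by
  have h1 : LinearMap.ker g ≤ LinearMap.ker (LinearMap.id - f ∘ₗ ρ : E →ₗ[R] E) := by
    intro e he
    rw [← hfg] at he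
    obtain ⟨y, rfl⟩ := he
    have := LinearMap.congr_fun hρ y
    simp only [LinearMap.comp_apply, LinearMap.id_apply] at this
    simp [LinearMap.mem_ker, this]
  let e₀ := g.quotKerEquivOfSurjective hg
  refine ⟨(LinearMap.ker g).liftQ _ h1 ∘ₗ e₀.symm.toLinearMap, ?_⟩
  ext x
  obtain ⟨e, rfl⟩ := hg x
  have h2 : e₀.symm (g e) = Submodule.Quotient.mk e := by
    rw [LinearEquiv.symm_apply_eq]
    rfl
  simp only [LinearMap.comp_apply, LinearEquiv.coe_coe, h2, LinearMap.id_apply]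
  change g ((LinearMap.id - f ∘ₗ ρ : E →ₗ[R] E) e) = g e
  have h3 : g (f (ρ e)) = 0 := by
    have : f (ρ e) ∈ LinearMap.ker g := hfg ▸ LinearMap.mem_range_self f _
    exact this
  simp [h3]

/-- Maps `Y → Y'` extend to an extension of `X` by `Y`. -/
theorem ExtZero.extend (h : ExtZero R X Y') {f : Y →ₗ[R] E} {g : E →ₗ[R] X}
    (hf : Function.Injective f) (hg : Function.Surjective g)
    (hfg : LinearMap.range f = LinearMap.ker g) (q : Y →ₗ[R] Y') :
    ∃ ρ : E →ₗ[R] Y', ρ ∘ₗ f = q := by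
  have hgf : ∀ y, g (f y) = 0 := fun y => by
    have : f y ∈ LinearMap.ker g := hfg ▸ LinearMap.mem_range_self f y
    exact this
  let S : Submodule R (Y' × E) := LinearMap.range (q.prod (-f))
  have hS : ∀ z, z ∈ S ↔ ∃ y, q y = z.1 ∧ - f y = z.2 := by
    intro z
    constructor
    · rintro ⟨y, rfl⟩; exact ⟨y, rfl, rfl⟩
    · rintro ⟨y, h1, h2⟩; exact ⟨y, Prod.ext h1 h2⟩
  let f' : Y' →ₗ[R] (Y' × E) ⧸ S := S.mkQ ∘ₗ LinearMap.inl R Y' E
  let g' : (Y' × E) ⧸ S →ₗ[R] X := S.liftQ (g ∘ₗ LinearMap.snd R Y' E) (by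
    intro z hz
    obtain ⟨y, h1, h2⟩ := (hS z).1 hz
    rw [LinearMap.mem_ker, LinearMap.comp_apply, LinearMap.snd_apply, ← h2, map_neg, hgf, neg_zero])
  have hf' : Function.Injective f' := by
    rw [injective_iff_map_eq_zero]
    intro y' hy'
    have h1 : (y', (0 : E)) ∈ S := (Submodule.Quotient.mk_eq_zero S).1 hy'
    obtain ⟨y, h2, h3⟩ := (hS _).1 h1
    have h4 : y = 0 := by
      apply hf
      rw [map_zero]
      exact neg_eq_zero.1 h3
    rw [h4, map_zero] at h2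
    exact h2.symm
  have hg' : Function.Surjective g' := by
    intro x
    obtain ⟨e, he⟩ := hg x
    exact ⟨S.mkQ (0, e), he⟩
  have hfg' : LinearMap.range f' = LinearMap.ker g' := by
    ext z
    obtain ⟨⟨y', e⟩, rfl⟩ := S.mkQ_surjective z
    rw [LinearMap.mem_range, LinearMap.mem_ker]
    constructor
    · rintro ⟨w, hw⟩
      rw [← hw]
      change g 0 = 0
      exact map_zero g
    · intro he
      have he' : g e = 0 := he
      have : e ∈ LinearMap.range f := by rw [hfg]; exact he'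
      obtain ⟨y, rfl⟩ := this
      refine ⟨y' + q y, ?_⟩
      change S.mkQ (y' + q y, 0) = S.mkQ (y', f y)
      rw [← sub_eq_zero, ← map_sub]
      refine (Submodule.Quotient.mk_eq_zero S).2 ((hS _).2 ⟨y, ?_, ?_⟩)
      · simp
      · simp
  obtain ⟨σ, hσ⟩ := h _ f' g' hf' hg' hfg'
  obtain ⟨ρ, hρ⟩ := exists_retraction hf' hfg' hσ
  refine ⟨ρ ∘ₗ S.mkQ ∘ₗ LinearMap.inr R Y' E, ?_⟩
  ext y
  have h1 : S.mkQ ((0 : Y'), f y) = f' (q y) := by
    change S.mkQ ((0 : Y'), f y) = S.mkQ (q y, 0)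
    rw [← sub_eq_zero, ← map_sub]
    refine (Submodule.Quotient.mk_eq_zero S).2 ((hS _).2 ⟨-y, ?_, ?_⟩)
    · simp
    · simp
  change ρ (S.mkQ ((0 : Y'), f y)) = q y
  rw [h1]
  exact LinearMap.congr_fun hρ (q y)

theorem ExtZero.retract_left (h : ExtZero R X' Y) (i : X →ₗ[R] X') (p : X' →ₗ[R] X)
    (hpi : p ∘ₗ i = LinearMap.id) : ExtZero R X Y := by
  intro E _ _ f g hf hg hfg
  obtain ⟨σ, hσ⟩ := h.lift hf hg hfg p
  refine ⟨σ ∘ₗ i, ?_⟩
  rw [← LinearMap.comp_assoc, hσ, hpi]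

theorem ExtZero.retract_right (h : ExtZero R X Y') (i : Y →ₗ[R] Y') (p : Y' →ₗ[R] Y)
    (hpi : p ∘ₗ i = LinearMap.id) : ExtZero R X Y := by
  intro E _ _ f g hf hg hfg
  obtain ⟨ρ, hρ⟩ := h.extend hf hg hfg i
  refine exists_section (ρ := p ∘ₗ ρ) hg hfg ?_
  rw [LinearMap.comp_assoc, hρ, hpi]

theorem extZero_pi_left {J : Type} [Fintype J] [DecidableEq J] {X : J → Type}
    [∀ j, AddCommGroup (X j)] [∀ j, Module R (X j)] (h : ∀ j, ExtZero R (X j) Y) :
    ExtZero R (∀ j, X j) Y := by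
  intro E _ _ f g hf hg hfg
  choose σ hσ using fun j => (h j).lift hf hg hfg (LinearMap.single R X j)
  refine ⟨∑ j, σ j ∘ₗ LinearMap.proj j, ?_⟩
  refine LinearMap.ext fun x => ?_
  simp only [LinearMap.comp_apply, LinearMap.sum_apply, LinearMap.proj_apply, map_sum,
    LinearMap.id_apply]
  have h1 : ∀ j, g (σ j (x j)) = Pi.single j (x j) := fun j => LinearMap.congr_fun (hσ j) (x j)
  simp only [h1]
  exact Finset.univ_sum_single x

theorem extZero_pi_right {J : Type} {Y : J → Type}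
    [∀ j, AddCommGroup (Y j)] [∀ j, Module R (Y j)] (h : ∀ j, ExtZero R X (Y j)) :
    ExtZero R X (∀ j, Y j) := by
  intro E _ _ f g hf hg hfg
  choose ρ hρ using fun j => (h j).extend hf hg hfg (LinearMap.proj j)
  refine exists_section (ρ := LinearMap.pi ρ) hg hfg ?_
  refine LinearMap.ext fun y => funext fun j => ?_
  exact LinearMap.congr_fun (hρ j) y

/-- If `Ext¹(M, M) = 0` then `Ext¹` vanishes on `add M`. -/
theorem ExtZero.add {M : Type} [AddCommGroup M] [Module R M] (h : ExtZero R M M)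
    (hX : InAdd R M X) (hY : InAdd R M Y) : ExtZero R X Y := by
  obtain ⟨n, i, p, hpi⟩ := hX
  obtain ⟨m, j, q, hqj⟩ := hY
  have h1 : ExtZero R (Fin n → M) (Fin m → M) :=
    extZero_pi_left fun _ => extZero_pi_right fun _ => h
  exact (h1.retract_left i p hpi).retract_right j q hqj

end Pool.Agent.LibO1
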