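import Pool.Agent.LibO1.Basis
import Pool.Agent.LibO1.Defs

/-!
MP_b19625: right modules over the algebra: linear maps, and the maps to the regular module defined by
linear functionals (the algebra is symmetric).
-/

set_option autoImplicit false
set_option linter.unusedSectionVars false

open scoped RightActions

namespace Pool.Agent.LibO1

open Finset Alg

variable {K : Type} [Field K] {ι : Type} [Fintype ι] [DecidableEq ι]
variable {X Y : Type} [AddCommGroup X] [Module (Alg K ι)ᵐᵒᵖ X] [AddCommGroup Y]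
  [Module (Alg K ι)ᵐᵒᵖ Y]

theorem rm_rm (x : X) (a b : Alg K ι) : (x <• a) <• b = x <• (a * b) := by
  rw [MulOpposite.op_mul, mul_smul]

theorem rm_one (x : X) : x <• (1 : Alg K ι) = x := by
  rw [MulOpposite.op_one, one_smul]

theorem rm_zero (x : X) : x <• (0 : Alg K ι) = 0 := by
  rw [MulOpposite.op_zero, zero_smul]

theorem rm_add (x : X) (a b : Alg K ι) : x <• (a + b) = x <• a + x <• b := by
  rw [MulOpposite.op_add, add_smul]

theorem rm_sub (x : X) (a b : Alg K ι) : x <• (a - b) = x <• a - x <• b := by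
  rw [MulOpposite.op_sub, sub_smul]

theorem rm_sum {α : Type} (s : Finset α) (x : X) (f : α → Alg K ι) :
    x <• (∑ i ∈ s, f i) = ∑ i ∈ s, x <• f i := by
  have h : MulOpposite.op (∑ i ∈ s, f i) = ∑ i ∈ s, MulOpposite.op (f i) :=
    map_sum (MulOpposite.opAddEquiv : Alg K ι ≃+ (Alg K ι)ᵐᵒᵖ) f s
  rw [h, Finset.sum_smul]

/-- The components of an element. -/
theorem sum_rm_E (x : X) : ∑ v, x <• (E v : Alg K ι) = x := by
  rw [← rm_sum, sum_E, rm_one]

section

variable [Module K X] [IsScalarTower K (Alg K ι)ᵐᵒᵖ X] [Module K Y]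
  [IsScalarTower K (Alg K ι)ᵐᵒᵖ Y]

theorem rm_smul (x : X) (c : K) (a : Alg K ι) : x <• (c • a) = c • (x <• a) := by
  rw [MulOpposite.op_smul, smul_assoc]

theorem smul_rm (x : X) (c : K) (a : Alg K ι) : (c • x) <• a = c • (x <• a) := by
  rw [← smul_comm]

/-- A `K`-linear map commuting with the generators is a homomorphism of right modules. -/
noncomputable def homOfGen [Nonempty ι] (f : X →ₗ[K] Y)
    (hE : ∀ v x, f (x <• (E v : Alg K ι)) = f x <• (E v : Alg K ι))
    (ht : ∀ k x, f (x <• (t k : Alg K ι)) = f x <• (t k : Alg K ι)) :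
    X →ₗ[(Alg K ι)ᵐᵒᵖ] Y where
  toFun := f
  map_add' := map_add f
  map_smul' a x := by
    have ht2 : ∀ k x, f (x <• (t2 k : Alg K ι)) = f x <• (t2 k : Alg K ι) := by
      intro k x
      rw [← t_mul_self, ← rm_rm, ← rm_rm, ht, ht]
    have hOm : ∀ x, f (x <• (Om : Alg K ι)) = f x <• (Om : Alg K ι) := by
      intro x
      obtain ⟨k⟩ := ‹Nonempty ι›
      rw [← t_mul_t2 k, ← rm_rm, ← rm_rm, ht2, ht]
    have h : ∀ a : Alg K ι, f (x <• a) = f x <• a := by
      intro a
      conv_lhs => rw [expand a]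
      conv_rhs => rw [expand a]
      simp only [rm_add, rm_sum, rm_smul, map_add, map_sum, map_smul, ← rm_rm, hE, ht, ht2, hOm]
    exact h a.unop

@[simp] theorem homOfGen_apply [Nonempty ι] (f : X →ₗ[K] Y)
    (hE : ∀ v x, f (x <• (E v : Alg K ι)) = f x <• (E v : Alg K ι))
    (ht : ∀ k x, f (x <• (t k : Alg K ι)) = f x <• (t k : Alg K ι)) (x : X) :
    homOfGen f hE ht x = f x := rfl

variable (ι) in
/-- The homomorphism `X → A` of right modules defined by a linear functional. -/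
noncomputable def Phi (φ : X →ₗ[K] K) : X →ₗ[(Alg K ι)ᵐᵒᵖ] Alg K ι where
  toFun x := ⟨fun v => φ (x <• (E v * Om : Alg K ι)),
    fun k v => φ (x <• (E (v + 1) * t2 k : Alg K ι)),
    fun k v => φ (x <• (E (v + 2) * t k : Alg K ι)),
    fun v => φ (x <• (E v : Alg K ι))⟩
  map_add' x y := by
    ext <;> simp [smul_add]
  map_smul' a x := by
    obtain ⟨a, rfl⟩ := MulOpposite.op_surjective a
    have h0 : ∀ v, (x <• a) <• (E v * Om : Alg K ι) = a.c0 v • (x <• (E v * Om : Alg K ι)) := by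
      intro v
      rw [rm_rm, mul_EOm, rm_smul]
    have h1 : ∀ k v, (x <• a) <• (E (v + 1) * t2 k : Alg K ι) =
        a.c0 (v + 1) • (x <• (E (v + 1) * t2 k : Alg K ι)) +
          a.c1 k v • (x <• (E v * Om : Alg K ι)) := by
      intro k v
      rw [rm_rm, mul_Et2, rm_add, rm_smul, rm_smul]
    have h2 : ∀ k v, (x <• a) <• (E (v + 2) * t k : Alg K ι) =
        a.c0 (v + 2) • (x <• (E (v + 2) * t k : Alg K ι)) +
          a.c1 k (v + 1) • (x <• (E (v + 1) * t2 k : Alg K ι)) +
            a.c2 k v • (x <• (E v * Om : Alg K ι)) := by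
      intro k v
      rw [rm_rm, mul_Et, rm_add, rm_add, rm_smul, rm_smul, rm_smul]
    have h3 : ∀ v, (x <• a) <• (E v : Alg K ι) =
        a.c0 v • (x <• (E v : Alg K ι)) +
          ∑ k, a.c1 k (v + 2) • (x <• (E (v + 2) * t k : Alg K ι)) +
            ∑ k, a.c2 k (v + 1) • (x <• (E (v + 1) * t2 k : Alg K ι)) +
              a.c3 v • (x <• (E v * Om : Alg K ι)) := by
      intro v
      rw [rm_rm, mul_E, rm_add, rm_add, rm_add, rm_sum, rm_sum, rm_smul, rm_smul]
      simp only [rm_smul]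
    rw [RingHom.id_apply]
    change _ = (_ : Alg K ι) * a
    ext
    · rename_i v
      simp only [mul_c0, h0, map_smul, smul_eq_mul]
      ring
    · rename_i k v
      simp only [mul_c1, h1, map_smul, map_add, smul_eq_mul]
      ring
    · rename_i k v
      simp only [mul_c2, h2, map_smul, map_add, smul_eq_mul]
      ring
    · rename_i v
      simp only [mul_c3, h3, map_smul, map_add, map_sum, smul_eq_mul, Finset.sum_add_distrib]
      rw [Finset.sum_congr rfl fun k _ => mul_comm (a.c1 k (v + 2)) _,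
        Finset.sum_congr rfl fun k _ => mul_comm (a.c2 k (v + 1)) _]
      ring

theorem Phi_c0 (φ : X →ₗ[K] K) (x : X) (v : ZMod 3) :
    (Phi ι φ x).c0 v = φ (x <• (E v * Om : Alg K ι)) := rfl

theorem Phi_c1 (φ : X →ₗ[K] K) (x : X) (k : ι) (v : ZMod 3) :
    (Phi ι φ x).c1 k v = φ (x <• (E (v + 1) * t2 k : Alg K ι)) := rfl

theorem Phi_c2 (φ : X →ₗ[K] K) (x : X) (k : ι) (v : ZMod 3) :
    (Phi ι φ x).c2 k v = φ (x <• (E (v + 2) * t k : Alg K ι)) := rfl

theorem Phi_c3 (φ : X →ₗ[K] K) (x : X) (v : ZMod 3) :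
    (Phi ι φ x).c3 v = φ (x <• (E v : Alg K ι)) := rfl

theorem sum_Phi_c3 (φ : X →ₗ[K] K) (x : X) : ∑ v, (Phi ι φ x).c3 v = φ x := by
  simp only [Phi_c3]
  rw [← map_sum, sum_rm_E]

end

end Pool.Agent.LibO1
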