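import Pool.Agent.LibO1.Add

/-!
MP_b19625: a module `M` over a ring `R` such that kernels of maps `Mᵐ → Mⁿ` have `add M`-resolutions
of length one has an endomorphism ring of global dimension at most three.
-/

set_option autoImplicit false

namespace Pool.Agent.LibO1

open MulOpposite

variable {R : Type} [Ring R] {M : Type} [AddCommGroup M] [Module R M]

/-- The ring of the statement. -/
abbrev Gam (R M : Type) [Ring R] [AddCommGroup M] [Module R M] : Type := (Module.End R M)ᵐᵒᵖ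

/-- `Γᵐ = Hom(M, Mᵐ)`. -/
def toHom {m : ℕ} (x : Fin m → Gam R M) : M →ₗ[R] (Fin m → M) := LinearMap.pi fun i => (x i).unop

/-- `Γᵐ = Hom(M, Mᵐ)`. -/
def fromHom {m : ℕ} (ξ : M →ₗ[R] (Fin m → M)) : Fin m → Gam R M :=
  fun i => op (LinearMap.proj i ∘ₗ ξ)

@[simp] theorem toHom_apply {m : ℕ} (x : Fin m → Gam R M) (z : M) (i : Fin m) :
    toHom x z i = (x i).unop z := rfl

@[simp] theorem fromHom_apply {m : ℕ} (ξ : M →ₗ[R] (Fin m → M)) (i : Fin m) (z : M) :
    (fromHom ξ i).unop z = ξ z i := rfl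

@[simp] theorem toHom_fromHom {m : ℕ} (ξ : M →ₗ[R] (Fin m → M)) : toHom (fromHom ξ) = ξ := by
  ext z i; rfl

@[simp] theorem fromHom_toHom {m : ℕ} (x : Fin m → Gam R M) : fromHom (toHom x) = x := by
  ext i; rfl

theorem toHom_add {m : ℕ} (x y : Fin m → Gam R M) : toHom (x + y) = toHom x + toHom y := rfl

theorem toHom_zero {m : ℕ} : toHom (0 : Fin m → Gam R M) = 0 := rfl

theorem fromHom_add {m : ℕ} (x y : M →ₗ[R] (Fin m → M)) : fromHom (x + y) = fromHom x + fromHom y :=
  rfl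

theorem toHom_smul {m : ℕ} (γ : Gam R M) (x : Fin m → Gam R M) :
    toHom (γ • x) = toHom x ∘ₗ γ.unop := rfl

theorem fromHom_comp {m : ℕ} (γ : Gam R M) (ξ : M →ₗ[R] (Fin m → M)) :
    fromHom (ξ ∘ₗ γ.unop) = γ • fromHom ξ := rfl

theorem toHom_injective {m : ℕ} : Function.Injective (toHom : (Fin m → Gam R M) → _) :=
  fun x y h => by rw [← fromHom_toHom x, h, fromHom_toHom]

/-- The map `Γᵐ → Γⁿ` induced by `Mᵐ → Mⁿ`. -/
def star {m n : ℕ} (G : (Fin m → M) →ₗ[R] (Fin n → M)) :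
    (Fin m → Gam R M) →ₗ[Gam R M] (Fin n → Gam R M) where
  toFun x := fromHom (G ∘ₗ toHom x)
  map_add' x y := by rw [toHom_add, LinearMap.comp_add, fromHom_add]
  map_smul' γ x := by
    rw [toHom_smul, ← LinearMap.comp_assoc, fromHom_comp]; rfl

theorem star_apply {m n : ℕ} (G : (Fin m → M) →ₗ[R] (Fin n → M)) (x : Fin m → Gam R M) :
    star G x = fromHom (G ∘ₗ toHom x) := rfl

theorem star_eq_zero {m n : ℕ} (G : (Fin m → M) →ₗ[R] (Fin n → M)) (x : Fin m → Gam R M) :
    star G x = 0 ↔ G ∘ₗ toHom x = 0 := by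
  rw [star_apply]
  constructor
  · intro h
    have h1 := congrArg toHom h
    rwa [toHom_fromHom, toHom_zero] at h1
  · intro h
    rw [h]; rfl

theorem exists_star {m n : ℕ} (g : (Fin m → Gam R M) →ₗ[Gam R M] (Fin n → Gam R M)) :
    ∃ G : (Fin m → M) →ₗ[R] (Fin n → M), star G = g := by
  refine ⟨LinearMap.lsum R (fun _ : Fin m => M) ℕ fun i => toHom (g (Pi.single i 1)), ?_⟩
  refine LinearMap.ext fun x => ?_
  apply toHom_injective
  rw [star_apply, toHom_fromHom]
  have h1 : x = ∑ i, x i • (Pi.single i (1 : Gam R M) : Fin m → Gam R M) := by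
    funext j
    simp only [Finset.sum_apply, Pi.smul_apply, smul_eq_mul]
    rw [Finset.sum_eq_single j]
    · simp
    · intro b _ hb
      rw [Pi.single_eq_of_ne (Ne.symm hb), mul_zero]
    · intro h; exact absurd (Finset.mem_univ j) h
  conv_rhs => rw [h1, map_sum]
  ext z j
  simp only [LinearMap.comp_apply, LinearMap.lsum_apply, LinearMap.sum_apply,
    LinearMap.proj_apply, toHom_apply, Finset.sum_apply, map_smul]
  have h2 : ∀ (s : Finset (Fin m)) (f : Fin m → Gam R M),
      (∑ c ∈ s, f c).unop z = ∑ c ∈ s, (f c).unop z := by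
    intro s f
    induction s using Finset.induction_on with
    | empty => rfl
    | insert a s ha ih => rw [Finset.sum_insert ha, Finset.sum_insert ha, ← ih]; rfl
  rw [h2]
  rfl

/-- The last step of the resolution. -/
theorem pdLE_one {m n : ℕ} (G : (Fin m → M) →ₗ[R] (Fin n → M))
    (h : ∃ (r : ℕ) (F : (Fin r → M) →ₗ[R] (Fin m → M)), G ∘ₗ F = 0 ∧
      (∀ ξ : M →ₗ[R] (Fin m → M), G ∘ₗ ξ = 0 → ∃ η : M →ₗ[R] (Fin r → M), F ∘ₗ η = ξ) ∧
      InAdd R M (LinearMap.ker F)) :
    PdLE (Gam R M) 1 (LinearMap.ker (star G)) := by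
  obtain ⟨r, F, h1, h2, c, i, p, hpi⟩ := h
  have h3 : ∀ x, star F x ∈ LinearMap.ker (star G) := by
    intro x
    rw [LinearMap.mem_ker, star_eq_zero, star_apply, toHom_fromHom, ← LinearMap.comp_assoc, h1,
      LinearMap.zero_comp]
  let f : (Fin r → Gam R M) →ₗ[Gam R M] LinearMap.ker (star G) :=
    LinearMap.codRestrict _ (star F) h3
  have hf : ∀ x, f x = 0 ↔ F ∘ₗ toHom x = 0 := by
    intro x
    rw [← star_eq_zero]
    exact ⟨fun h => congrArg Subtype.val h, fun h => Subtype.ext h⟩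
  refine ⟨r, f, ?_, ?_⟩
  · rintro ⟨x, hx⟩
    rw [LinearMap.mem_ker, star_eq_zero] at hx
    obtain ⟨η, hη⟩ := h2 _ hx
    refine ⟨fromHom η, Subtype.ext ?_⟩
    change star F (fromHom η) = x
    rw [star_apply, toHom_fromHom, hη, fromHom_toHom]
  · change Module.Projective _ _
    have hx : ∀ x : LinearMap.ker f, ∀ z, toHom x.1 z ∈ LinearMap.ker F := by
      intro x z
      exact LinearMap.congr_fun ((hf x.1).1 x.2) z
    let a : LinearMap.ker f →ₗ[Gam R M] (Fin c → Gam R M) :=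
      { toFun := fun x => fromHom (i ∘ₗ LinearMap.codRestrict _ (toHom x.1) (hx x))
        map_add' := fun x y => by
          rw [← fromHom_add, ← LinearMap.comp_add]
          rfl
        map_smul' := fun γ x => by
          rw [RingHom.id_apply, ← fromHom_comp, LinearMap.comp_assoc]
          rfl }
    let b : (Fin c → Gam R M) →ₗ[Gam R M] LinearMap.ker f :=
      LinearMap.codRestrict _ (star ((LinearMap.ker F).subtype ∘ₗ p)) (by
        intro z
        rw [LinearMap.mem_ker, hf, star_apply, toHom_fromHom]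
        ext w
        exact congrFun (p (toHom z w)).2 _)
    refine Module.Projective.of_split a b ?_
    refine LinearMap.ext fun x => Subtype.ext ?_
    change star ((LinearMap.ker F).subtype ∘ₗ p) (fromHom _) = x.1
    rw [star_apply, toHom_fromHom]
    apply toHom_injective
    rw [toHom_fromHom]
    ext z j
    have h4 := LinearMap.congr_fun hpi ⟨toHom x.1 z, hx x z⟩
    exact congrFun (congrArg Subtype.val h4) j

theorem PdLE.congr {S : Type} [Ring S] {d : ℕ} {Y Z : Type} [AddCommGroup Y] [Module S Y]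
    [AddCommGroup Z] [Module S Z] (e : Y ≃ₗ[S] Z) (h : PdLE S d Y) : PdLE S d Z := by
  induction d generalizing Y Z with
  | zero =>
    have : Module.Projective S Y := h
    exact Module.Projective.of_equiv e
  | succ d ih =>
    obtain ⟨n, f, hf, h1⟩ := h
    refine ⟨n, e.toLinearMap ∘ₗ f, e.surjective.comp hf, ?_⟩
    refine ih (LinearEquiv.ofEq _ _ ?_) h1
    ext x
    simp

/-- The general bound of the global dimension of the endomorphism ring. -/
theorem glDimLE_of_res (hN : IsNoetherianRing (Gam R M))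
    (h : ∀ (m n : ℕ) (G : (Fin m → M) →ₗ[R] (Fin n → M)),
      ∃ (r : ℕ) (F : (Fin r → M) →ₗ[R] (Fin m → M)), G ∘ₗ F = 0 ∧
      (∀ ξ : M →ₗ[R] (Fin m → M), G ∘ₗ ξ = 0 → ∃ η : M →ₗ[R] (Fin r → M), F ∘ₗ η = ξ) ∧
      InAdd R M (LinearMap.ker F)) :
    GlDimLE (Gam R M) 3 := by
  intro Y _ _ hY
  obtain ⟨n, p, hp⟩ := Module.Finite.exists_fin' (Gam R M) Y
  refine ⟨n, p, hp, ?_⟩
  have h1 : Module.Finite (Gam R M) (LinearMap.ker p) := inferInstance
  obtain ⟨m, q, hq⟩ := Module.Finite.exists_fin' (Gam R M) (LinearMap.ker p)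
  refine ⟨m, q, hq, ?_⟩
  obtain ⟨G, hG⟩ := exists_star ((LinearMap.ker p).subtype ∘ₗ q)
  refine PdLE.congr (LinearEquiv.ofEq _ _ ?_) (pdLE_one G (h m n G))
  rw [hG]
  ext x
  simp

end Pool.Agent.LibO1
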