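import Pool.Agent.LibO1.Basis
import Pool.Agent.LibO1.Add

/-!
MP_b19625: the algebra is symmetric, connected and not semisimple.
-/

set_option autoImplicit false
set_option linter.unusedSectionVars false

namespace Pool.Agent.LibO1

open Finset Alg MulOpposite

/-- The regular module. -/
def opEquiv (A : Type) [Ring A] : A ≃ₗ[Aᵐᵒᵖ] Aᵐᵒᵖ where
  toFun x := op x
  invFun x := x.unop
  map_add' _ _ := rfl
  map_smul' _ _ := rfl
  left_inv _ := rfl
  right_inv _ := rfl

theorem isGen_self (A : Type) [Ring A] : IsGen Aᵐᵒᵖ A := inAdd_self.congr (opEquiv A)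

theorem finite_self (A : Type) [Ring A] : Module.Finite Aᵐᵒᵖ A :=
  Module.Finite.equiv (opEquiv A).symm

theorem isGendoSym_of_isSym (K : Type) [Field K] (A : Type) [Ring A] [Algebra K A]
    (h1 : Module.Finite K A) (h2 : IsSym K A) : IsGendoSym K A :=
  ⟨A, inferInstance, inferInstance, A, inferInstance, inferInstance, h1, h2, finite_self A,
    isGen_self A, (RingEquiv.moduleEndSelfOp A), fun c m => by
      change algebraMap K A c * m = m * algebraMap K A c
      exact Algebra.commutes c m⟩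

variable {K : Type} [Field K] {ι : Type} [Fintype ι] [DecidableEq ι]

/-- The symmetrizing form. -/
def lam : Alg K ι →ₗ[K] K where
  toFun x := ∑ v, x.c3 v
  map_add' x y := by simp [Finset.sum_add_distrib]
  map_smul' c x := by simp [Finset.mul_sum]

theorem lam_apply (x : Alg K ι) : lam x = ∑ v, x.c3 v := rfl

theorem lam_comm (x y : Alg K ι) : lam (x * y) = lam (y * x) := by
  simp only [lam_apply, mul_c3, Finset.sum_add_distrib]
  have h1 : ∀ x y : Alg K ι, ∑ v, ∑ k, x.c1 k v * y.c2 k (v + 1) =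
      ∑ v, ∑ k, y.c2 k v * x.c1 k (v + 2) := by
    intro x y
    rw [← Equiv.sum_comp (Equiv.addRight (1 : ZMod 3)) fun v => ∑ k, y.c2 k v * x.c1 k (v + 2)]
    refine Finset.sum_congr rfl fun v _ => Finset.sum_congr rfl fun k _ => ?_
    simp only [Equiv.coe_addRight, z12]
    ring
  rw [h1 x y, ← h1 y x]
  have h2 : ∀ x y : Alg K ι, ∑ v, x.c0 v * y.c3 v = ∑ v, y.c3 v * x.c0 v := fun x y =>
    Finset.sum_congr rfl fun v _ => mul_comm _ _
  rw [h2 x y, h2 y x]
  ring

theorem lam_EOm (v : ZMod 3) : lam (E v * Om : Alg K ι) = 1 := by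
  rw [lam_apply]; simp

theorem lam_E (v : ZMod 3) : lam (E v : Alg K ι) = 0 := by
  rw [lam_apply]; simp

theorem lam_Et (v : ZMod 3) (k : ι) : lam (E v * t k : Alg K ι) = 0 := by
  rw [lam_apply]; simp

theorem lam_Et2 (v : ZMod 3) (k : ι) : lam (E v * t2 k : Alg K ι) = 0 := by
  rw [lam_apply]; simp

theorem isSym : IsSym K (Alg K ι) := by
  refine ⟨lam, lam_comm, fun x hx => ?_⟩
  ext
  · rename_i v
    have h := hx (E v * Om)
    rw [mul_EOm, map_smul, lam_EOm] at h
    simpa using h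
  · rename_i k v
    have h := hx (E (v + 1) * t2 k)
    rw [mul_Et2, map_add, map_smul, map_smul, lam_EOm, lam_Et2] at h
    simpa using h
  · rename_i k v
    have h := hx (E (v + 2) * t k)
    rw [mul_Et, map_add, map_add, map_smul, map_smul, map_smul, lam_EOm, lam_Et2, lam_Et] at h
    simpa using h
  · rename_i v
    have h := hx (E v)
    rw [mul_E, map_add, map_add, map_add, map_sum, map_sum, map_smul, map_smul, lam_EOm,
      lam_E] at h
    simp only [map_smul, lam_Et, lam_Et2] at h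
    simpa using h

theorem sq_sq_eq_zero (x : Alg K ι) (hx : x.c0 = 0) : x * x * (x * x) = 0 := by
  ext <;> simp [hx]

instance : Nontrivial (Alg K ι) :=
  ⟨⟨0, 1, fun h => zero_ne_one (congrFun (congrArg Alg.c0 h) (0 : ZMod 3))⟩⟩

theorem connected [Nonempty ι] (e : Alg K ι) (h : e * e = e) (hc : ∀ a, e * a = a * e) :
    e = 0 ∨ e = 1 := by
  obtain ⟨k⟩ := ‹Nonempty ι›
  have h1 : ∀ v, e.c0 v = e.c0 (v + 1) := by
    intro v
    have h2 := congrFun (congrFun (congrArg Alg.c1 (hc (t k))) k) v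
    simpa using h2
  have h01 : e.c0 0 = e.c0 1 := by simpa using h1 0
  have h12 : e.c0 1 = e.c0 2 := by
    have := h1 1
    rwa [show (1 : ZMod 3) + 1 = 2 from rfl] at this
  have h2 : ∀ v, e.c0 v = e.c0 0 := by
    intro v
    have h3 : v = 0 ∨ v = 1 ∨ v = 2 := by revert v; decide
    rcases h3 with rfl | rfl | rfl
    · rfl
    · exact h01.symm
    · exact h12.symm.trans h01.symm
  have h3 : e.c0 0 * e.c0 0 = e.c0 0 := congrFun (congrArg Alg.c0 h) 0
  have h4 : e.c0 0 = 0 ∨ e.c0 0 = 1 := by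
    have h5 : e.c0 0 * (e.c0 0 - 1) = 0 := by rw [mul_sub, h3, mul_one, sub_self]
    rcases mul_eq_zero.1 h5 with h6 | h6
    · exact Or.inl h6
    · exact Or.inr (sub_eq_zero.1 h6)
  rcases h4 with h4 | h4
  · left
    have h5 : e.c0 = 0 := by funext v; rw [h2 v, h4]; rfl
    have h6 := sq_sq_eq_zero e h5
    rwa [h, h] at h6
  · right
    have h5 : (1 - e).c0 = 0 := by
      funext v
      simp [h2 v, h4]
    have h6 := sq_sq_eq_zero (1 - e) h5
    have h7 : (1 - e) * (1 - e) = 1 - e := by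
      rw [mul_sub, mul_one, sub_mul, one_mul, h, sub_self, sub_zero]
    rw [h7, h7] at h6
    exact (sub_eq_zero.1 h6).symm

theorem Om_mul_mul_Om (a : Alg K ι) : Om * a * Om = 0 := by
  ext <;> simp

theorem Om_ne_zero : (Om : Alg K ι) ≠ 0 := fun h =>
  one_ne_zero (α := K) (congrFun (congrArg Alg.c3 h) (0 : ZMod 3))

theorem not_semisimple : ¬ IsSemisimpleRing (Alg K ι) := by
  intro h
  obtain ⟨J, hJ⟩ := exists_isCompl (Ideal.span {(Om : Alg K ι)} : Submodule (Alg K ι) (Alg K ι))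
  have h1 : (1 : Alg K ι) ∈ Ideal.span {(Om : Alg K ι)} ⊔ J := by
    rw [hJ.sup_eq_top]; exact Submodule.mem_top
  obtain ⟨a, ha, j, hj, haj⟩ := Submodule.mem_sup.1 h1
  obtain ⟨b, rfl⟩ := Ideal.mem_span_singleton'.1 ha
  have h2 : (Om : Alg K ι) = Om * j := by
    conv_lhs => rw [← mul_one (Om : Alg K ι), ← haj, mul_add, ← mul_assoc, Om_mul_mul_Om, zero_add]
  have h3 : (Om : Alg K ι) ∈ J := by
    rw [h2]
    exact J.smul_mem _ hj
  have h4 : (Om : Alg K ι) ∈ Ideal.span {(Om : Alg K ι)} := Ideal.subset_span rfl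
  exact Om_ne_zero ((Submodule.disjoint_def.1 hJ.disjoint) _ h4 h3)

end Pool.Agent.LibO1
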