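import Pool.Agent.LibO1.Cyc
import Pool.Agent.LibO1.Sym

/-!
MP_b19625: the generator-cogenerator, and the modules on which only one colour acts.
-/

set_option autoImplicit false
set_option linter.unusedSectionVars false

open scoped RightActions

namespace Pool.Agent.LibO1

open Finset Alg MulOpposite Module

variable {K : Type} [Field K] {ι : Type} [Fintype ι] [DecidableEq ι]

variable (K ι) in
/-- `A / soc A`. -/
abbrev Bar : Type := Alg K ι ⧸ (cyc (Om : Alg K ι))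

variable (K ι) in
/-- The generator-cogenerator. -/
abbrev GM : Type :=
  Alg K ι × Bar K ι × (∀ k : ι, cyc (t k : Alg K ι)) × (∀ k : ι, cyc (t2 k : Alg K ι)) ×
    cyc (Om : Alg K ι)

theorem inAdd_A : InAdd (Alg K ι)ᵐᵒᵖ (GM K ι) (Alg K ι) :=
  inAdd_self.retract (LinearMap.inl _ _ _) (LinearMap.fst _ _ _) (LinearMap.ext fun _ => rfl)

theorem inAdd_Bar : InAdd (Alg K ι)ᵐᵒᵖ (GM K ι) (Bar K ι) :=
  inAdd_self.retract (LinearMap.inr _ _ _ ∘ₗ LinearMap.inl _ _ _)
    (LinearMap.fst _ _ _ ∘ₗ LinearMap.snd _ _ _) (LinearMap.ext fun _ => rfl)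

theorem inAdd_t (k : ι) : InAdd (Alg K ι)ᵐᵒᵖ (GM K ι) (cyc (t k : Alg K ι)) :=
  inAdd_self.retract
    (LinearMap.inr _ _ _ ∘ₗ LinearMap.inr _ _ _ ∘ₗ LinearMap.inl _ _ _ ∘ₗ
      LinearMap.single _ (fun k : ι => cyc (t k : Alg K ι)) k)
    (LinearMap.proj k ∘ₗ LinearMap.fst _ _ _ ∘ₗ LinearMap.snd _ _ _ ∘ₗ LinearMap.snd _ _ _)
    (LinearMap.ext fun x => by simp)

theorem inAdd_t2 (k : ι) : InAdd (Alg K ι)ᵐᵒᵖ (GM K ι) (cyc (t2 k : Alg K ι)) :=
  inAdd_self.retract
    (LinearMap.inr _ _ _ ∘ₗ LinearMap.inr _ _ _ ∘ₗ LinearMap.inr _ _ _ ∘ₗ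
      LinearMap.inl _ _ _ ∘ₗ LinearMap.single _ (fun k : ι => cyc (t2 k : Alg K ι)) k)
    (LinearMap.proj k ∘ₗ LinearMap.fst _ _ _ ∘ₗ LinearMap.snd _ _ _ ∘ₗ LinearMap.snd _ _ _ ∘ₗ
      LinearMap.snd _ _ _)
    (LinearMap.ext fun x => by simp)

theorem inAdd_Om : InAdd (Alg K ι)ᵐᵒᵖ (GM K ι) (cyc (Om : Alg K ι)) :=
  inAdd_self.retract
    (LinearMap.inr _ _ _ ∘ₗ LinearMap.inr _ _ _ ∘ₗ LinearMap.inr _ _ _ ∘ₗ
      LinearMap.inr _ _ _)
    (LinearMap.snd _ _ _ ∘ₗ LinearMap.snd _ _ _ ∘ₗ LinearMap.snd _ _ _ ∘ₗ LinearMap.snd _ _ _)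
    (LinearMap.ext fun x => by simp)

/-- `E u · a A` is a direct summand of `a A` if it is contained in `a A`. -/
theorem inAdd_Ecyc {M : Type} [AddCommGroup M] [Module (Alg K ι)ᵐᵒᵖ M] (u : ZMod 3) (a : Alg K ι)
    (ha : E u * a ∈ cyc a) (h : InAdd (Alg K ι)ᵐᵒᵖ M (cyc a)) :
    InAdd (Alg K ι)ᵐᵒᵖ M (cyc (E u * a)) := by
  have h1 : cyc (E u * a) ≤ cyc a := by
    rintro _ ⟨c, rfl⟩
    obtain ⟨d, hd⟩ := mem_cyc.1 ha
    refine mem_cyc.2 ⟨d * c, ?_⟩
    rw [← mul_assoc, hd]; rfl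
  refine h.retract (Submodule.inclusion h1)
    (LinearMap.codRestrict _ (lmul (E u) ∘ₗ (cyc a).subtype) (fun x => ?_)) ?_
  · obtain ⟨c, hc⟩ := mem_cyc.1 x.2
    refine mem_cyc.2 ⟨c, ?_⟩
    change E u * a * c = E u * x.1
    rw [← hc, mul_assoc]
  · refine LinearMap.ext fun x => Subtype.ext ?_
    obtain ⟨c, hc⟩ := mem_cyc.1 x.2
    change E u * x.1 = x.1
    rw [← hc, ← mul_assoc, ← mul_assoc, E_mul_self]

theorem inAdd_Et (u : ZMod 3) (k : ι) :
    InAdd (Alg K ι)ᵐᵒᵖ (GM K ι) (cyc (E u * t k : Alg K ι)) :=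
  inAdd_Ecyc u _ (mem_cyc.2 ⟨E (u + 1), (E_mul_t u k).symm⟩) (inAdd_t k)

theorem inAdd_Et2 (u : ZMod 3) (k : ι) :
    InAdd (Alg K ι)ᵐᵒᵖ (GM K ι) (cyc (E u * t2 k : Alg K ι)) :=
  inAdd_Ecyc u _ (mem_cyc.2 ⟨E (u + 2), (E_mul_t2 u k).symm⟩) (inAdd_t2 k)

theorem inAdd_EOm (u : ZMod 3) :
    InAdd (Alg K ι)ᵐᵒᵖ (GM K ι) (cyc (E u * Om : Alg K ι)) :=
  inAdd_Ecyc u _ (mem_cyc.2 ⟨E u, (E_mul_Om u).symm⟩) inAdd_Om

/-! ### Right ideals of one colour -/

theorem E_mul_colour (k : ι) (u : ZMod 3) (x : Alg K ι) (h0 : x.c0 = 0)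
    (h1 : ∀ l, l ≠ k → x.c1 l = 0) (h2 : ∀ l, l ≠ k → x.c2 l = 0) :
    E u * x = E u * t k * (x.c1 k u • E (u + 1) + x.c2 k u • t k + x.c3 u • t2 k) := by
  ext
  · rename_i w; simp [h0]
  · rename_i l w
    by_cases hw : w = u
    · subst hw
      by_cases hl : l = k
      · subst hl; simp
      · simp [hl, h1 l hl]
    · simp [hw]
  · rename_i l w
    by_cases hw : w = u
    · subst hw
      by_cases hl : l = k
      · subst hl; simp
      · simp [hl, h2 l hl]
    · simp [hw]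
  · rename_i w
    by_cases hw : w = u
    · subst hw
      simp
    · simp [hw]

theorem E_mul_colour2 (k : ι) (u : ZMod 3) (x : Alg K ι) (h0 : x.c0 = 0)
    (h1 : x.c1 = 0) (h2 : ∀ l, l ≠ k → x.c2 l = 0) :
    E u * x = E u * t2 k * (x.c2 k u • E (u + 2) + x.c3 u • t k) := by
  ext
  · rename_i w; simp [h0]
  · simp [h1]
  · rename_i l w
    by_cases hw : w = u
    · subst hw
      by_cases hl : l = k
      · subst hl; simp
      · simp [hl, h2 l hl]
    · simp [hw]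
  · rename_i w
    by_cases hw : w = u
    · subst hw
      simp
    · simp [hw]

theorem E_mul_colour3 (u : ZMod 3) (x : Alg K ι) (h0 : x.c0 = 0)
    (h1 : x.c1 = 0) (h2 : x.c2 = 0) :
    E u * x = E u * Om * (x.c3 u • 1) := by
  ext
  · rename_i w; simp [h0]
  · simp [h1]
  · simp [h2]
  · rename_i w
    by_cases hw : w = u
    · subst hw
      simp
    · simp [hw]

section

variable {Y : Type} [AddCommGroup Y] [Module (Alg K ι)ᵐᵒᵖ Y] [Module K Y]
  [IsScalarTower K (Alg K ι)ᵐᵒᵖ Y]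

/-- A functional equal to one at a nonzero vector. -/
theorem exists_functional {V : Type} [AddCommGroup V] [Module K V] (w : V) (hw : w ≠ 0) :
    ∃ φ : V →ₗ[K] K, φ w = 1 := by
  have h : ∃ φ : Module.Dual K V, φ w ≠ 0 := by
    by_contra h
    push Not at h
    exact hw ((Module.forall_dual_apply_eq_zero_iff K w).1 h)
  obtain ⟨φ, hφ⟩ := h
  exact ⟨(φ w)⁻¹ • φ, by simp [hφ]⟩

theorem exists_comp_ne {y : Y} {a : Alg K ι} (h : y <• a ≠ 0) :
    ∃ v, (y <• (E v : Alg K ι)) <• a ≠ 0 := by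
  by_contra h1
  push Not at h1
  apply h
  have h2 := sum_rm_E (K := K) (ι := ι) y
  rw [← h2, Finset.smul_sum]
  exact Finset.sum_eq_zero fun v _ => h1 v

/-- Annihilators of homogeneous elements of one colour. -/
theorem rm_zero_of {k : ι} {v : ZMod 3} {y : Y} (h0 : y <• (E v : Alg K ι) = y)
    (h1 : ∀ l, l ≠ k → y <• (t l : Alg K ι) = 0) (h3 : y <• (Om : Alg K ι) = 0) (c : Alg K ι)
    (hc0 : c.c0 v = 0) (hc1 : c.c1 k v = 0 ∨ y <• (t k : Alg K ι) = 0)
    (hc2 : c.c2 k v = 0 ∨ y <• (t2 k : Alg K ι) = 0) : y <• c = 0 := by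
  have hE : ∀ u, u ≠ v → y <• (E u : Alg K ι) = 0 := by
    intro u hu
    rw [← h0, rm_rm, E_mul_E, if_neg (Ne.symm hu), rm_zero]
  have ht2 : ∀ l, l ≠ k → y <• (t2 l : Alg K ι) = 0 := by
    intro l hl
    rw [← t_mul_self l, ← rm_rm, h1 l hl, smul_zero]
  rw [expand c]
  simp only [rm_add, rm_sum, rm_smul, ← rm_rm]
  have e2 : ∀ u, c.c0 u • (y <• (E u : Alg K ι)) = 0 := by
    intro u
    by_cases hu : u = v
    · subst hu; rw [hc0, zero_smul]
    · rw [hE u hu, smul_zero]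
  have e3 : ∀ u l, c.c1 l u • ((y <• (E u : Alg K ι)) <• (t l : Alg K ι)) = 0 := by
    intro u l
    by_cases hu : u = v
    · subst hu
      by_cases hk : l = k
      · subst hk
        rcases hc1 with h | h
        · rw [h, zero_smul]
        · rw [h0, h, smul_zero]
      · rw [h0, h1 l hk, smul_zero]
    · rw [hE u hu, smul_zero, smul_zero]
  have e4 : ∀ u l, c.c2 l u • ((y <• (E u : Alg K ι)) <• (t2 l : Alg K ι)) = 0 := by
    intro u l
    by_cases hu : u = v
    · subst hu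
      by_cases hk : l = k
      · subst hk
        rcases hc2 with h | h
        · rw [h, zero_smul]
        · rw [h0, h, smul_zero]
      · rw [h0, ht2 l hk, smul_zero]
    · rw [hE u hu, smul_zero, smul_zero]
  have e5 : ∀ u, c.c3 u • ((y <• (E u : Alg K ι)) <• (Om : Alg K ι)) = 0 := by
    intro u
    by_cases hu : u = v
    · subst hu
      rw [h0, h3, smul_zero]
    · rw [hE u hu, smul_zero, smul_zero]
  simp only [e2, e3, e4, e5, Finset.sum_const_zero, add_zero]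

theorem finrank_ker_lt {Z : Type} [AddCommGroup Z] [Module (Alg K ι)ᵐᵒᵖ Z] [Module.Finite K Y]
    (r : Y →ₗ[(Alg K ι)ᵐᵒᵖ] Z) (y : Y) (h : r y ≠ 0) :
    finrank K (LinearMap.ker r) < finrank K Y := by
  have h1 : (LinearMap.ker r).restrictScalars K ≠ ⊤ := by
    intro h2
    apply h
    have h3 : y ∈ (LinearMap.ker r).restrictScalars K := by rw [h2]; trivial
    exact h3
  exact Submodule.finrank_lt h1

end

/-- **Nakayama modules**: a module on which only the colour `k` acts and which is annihilated by the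
socle lies in `add M`. -/
theorem inAdd_colour (k : ι) : ∀ (n : ℕ) (Y : Type) [AddCommGroup Y] [Module (Alg K ι)ᵐᵒᵖ Y]
    [Module K Y] [IsScalarTower K (Alg K ι)ᵐᵒᵖ Y] [Module.Finite K Y],
    (∀ l, l ≠ k → ∀ y : Y, y <• (t l : Alg K ι) = 0) → (∀ y : Y, y <• (Om : Alg K ι) = 0) →
    finrank K Y < n → InAdd (Alg K ι)ᵐᵒᵖ (GM K ι) Y := by
  intro n
  induction n with
  | zero => intro Y _ _ _ _ _ _ _ h; exact absurd h (Nat.not_lt_zero _)
  | succ n ih =>
    intro Y _ _ _ _ _ h1 h3 hn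
    have ht2 : ∀ l, l ≠ k → ∀ y : Y, y <• (t2 l : Alg K ι) = 0 := by
      intro l hl y
      rw [← t_mul_self l, ← rm_rm, h1 l hl y, smul_zero]
    -- the induction step for a retraction onto a cyclic module
    have key : ∀ (a : Alg K ι) (y : Y) (r : Y →ₗ[(Alg K ι)ᵐᵒᵖ] Alg K ι), r y = a → a ≠ 0 →
        (∀ z, r z ∈ cyc a) → (∀ c, a * c = 0 → y <• c = 0) →
        InAdd (Alg K ι)ᵐᵒᵖ (GM K ι) (cyc a) → InAdd (Alg K ι)ᵐᵒᵖ (GM K ι) Y := by
      intro a y r hr ha hra hc hin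
      have hfin : Module.Finite K (LinearMap.ker r) :=
        (inferInstance : Module.Finite K ((LinearMap.ker r).restrictScalars K))
      refine inAdd_of_cyc a y r hr hra hc hin (ih (LinearMap.ker r) ?_ ?_ ?_)
      · intro l hl z
        exact Subtype.ext (h1 l hl z.1)
      · intro z
        exact Subtype.ext (h3 z.1)
      · have := finrank_ker_lt (K := K) r y (by rw [hr]; exact ha)
        omega
    have hPhi0 : ∀ (φ : Y →ₗ[K] K) (z : Y), (Phi ι φ z).c0 = 0 := by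
      intro φ z
      funext v
      rw [Phi_c0, ← rm_rm, h3, map_zero]; rfl
    have hPhi1 : ∀ (φ : Y →ₗ[K] K) (z : Y) (l : ι), l ≠ k → (Phi ι φ z).c1 l = 0 := by
      intro φ z l hl
      funext v
      rw [Phi_c1, ← rm_rm, ht2 l hl, map_zero]; rfl
    have hPhi2 : ∀ (φ : Y →ₗ[K] K) (z : Y) (l : ι), l ≠ k → (Phi ι φ z).c2 l = 0 := by
      intro φ z l hl
      funext v
      rw [Phi_c2, ← rm_rm, h1 l hl, map_zero]; rfl
    by_cases hcase3 : ∃ y : Y, y <• (t2 k : Alg K ι) ≠ 0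
    · obtain ⟨y, hy⟩ := hcase3
      obtain ⟨v, hv⟩ := exists_comp_ne hy
      set y₀ := y <• (E v : Alg K ι) with hy₀
      have hE0 : y₀ <• (E v : Alg K ι) = y₀ := by rw [hy₀, rm_rm, E_mul_self]
      have hEu : ∀ u, u ≠ v → y₀ <• (E u : Alg K ι) = 0 := by
        intro u hu
        rw [hy₀, rm_rm, E_mul_E, if_neg (Ne.symm hu), rm_zero]
      obtain ⟨φ, hφ⟩ := exists_functional (K := K) _ hv
      refine key (E (v + 2) * t k) y₀ (lmul (E (v + 2)) ∘ₗ Phi ι φ) ?_ ?_ ?_ ?_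
        (inAdd_Et _ k)
      · change E (v + 2) * Phi ι φ y₀ = _
        rw [E_mul_colour k (v + 2) _ (hPhi0 φ y₀) (hPhi1 φ y₀) (hPhi2 φ y₀), Phi_c1, Phi_c2,
          Phi_c3, z21, z22, ← rm_rm, hE0, hφ, ← rm_rm, hEu (v + 1) (by simp), hEu (v + 2)
            (by simpa using (by decide : (2 : ZMod 3) ≠ 0))]
        simp only [smul_zero, map_zero, zero_smul, add_zero, one_smul]
        rw [E_mul_t, mul_assoc, z21, E_mul_self]
      · intro h
        have := congrFun (congrFun (congrArg Alg.c1 h) k) (v + 2)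
        simp at this
      · intro z
        change E (v + 2) * Phi ι φ z ∈ _
        rw [E_mul_colour k (v + 2) _ (hPhi0 φ z) (hPhi1 φ z) (hPhi2 φ z)]
        exact mem_cyc.2 ⟨_, rfl⟩
      · intro c hc
        have hc0 : c.c0 v = 0 := by
          have := congrFun (congrFun (congrArg Alg.c1 hc) k) (v + 2)
          simpa [z21] using this
        have hc1 : c.c1 k v = 0 := by
          have := congrFun (congrFun (congrArg Alg.c2 hc) k) (v + 2)
          simpa [z21] using this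
        have hc2 : c.c2 k v = 0 := by
          have := congrFun (congrArg Alg.c3 hc) (v + 2)
          simpa [z21] using this
        exact rm_zero_of hE0 (fun l hl => h1 l hl _) (h3 _) c hc0 (Or.inl hc1) (Or.inl hc2)
    push Not at hcase3
    have hPhi1' : ∀ (φ : Y →ₗ[K] K) (z : Y), (Phi ι φ z).c1 = 0 := by
      intro φ z
      funext l
      by_cases hl : l = k
      · subst hl
        funext v
        rw [Phi_c1, ← rm_rm, hcase3, map_zero]; rfl
      · exact hPhi1 φ z l hl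
    by_cases hcase2 : ∃ y : Y, y <• (t k : Alg K ι) ≠ 0
    · obtain ⟨y, hy⟩ := hcase2
      obtain ⟨v, hv⟩ := exists_comp_ne hy
      set y₀ := y <• (E v : Alg K ι) with hy₀
      have hE0 : y₀ <• (E v : Alg K ι) = y₀ := by rw [hy₀, rm_rm, E_mul_self]
      have hEu : ∀ u, u ≠ v → y₀ <• (E u : Alg K ι) = 0 := by
        intro u hu
        rw [hy₀, rm_rm, E_mul_E, if_neg (Ne.symm hu), rm_zero]
      obtain ⟨φ, hφ⟩ := exists_functional (K := K) _ hv
      refine key (E (v + 1) * t2 k) y₀ (lmul (E (v + 1)) ∘ₗ Phi ι φ) ?_ ?_ ?_ ?_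
        (inAdd_Et2 _ k)
      · change E (v + 1) * Phi ι φ y₀ = _
        rw [E_mul_colour2 k (v + 1) _ (hPhi0 φ y₀) (hPhi1' φ y₀) (hPhi2 φ y₀), Phi_c2,
          Phi_c3, z12, ← rm_rm, hE0, hφ, hEu (v + 1) (by simp)]
        simp only [map_zero, zero_smul, add_zero, one_smul]
        rw [E_mul_t2, mul_assoc, z12, E_mul_self]
      · intro h
        have := congrFun (congrFun (congrArg Alg.c2 h) k) (v + 1)
        simp at this
      · intro z
        change E (v + 1) * Phi ι φ z ∈ _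
        rw [E_mul_colour2 k (v + 1) _ (hPhi0 φ z) (hPhi1' φ z) (hPhi2 φ z)]
        exact mem_cyc.2 ⟨_, rfl⟩
      · intro c hc
        have hc0 : c.c0 v = 0 := by
          have := congrFun (congrFun (congrArg Alg.c2 hc) k) (v + 1)
          simpa [z12] using this
        have hc1 : c.c1 k v = 0 := by
          have := congrFun (congrArg Alg.c3 hc) (v + 1)
          simpa [z12] using this
        exact rm_zero_of hE0 (fun l hl => h1 l hl _) (h3 _) c hc0 (Or.inl hc1)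
          (Or.inr (hcase3 _))
    push Not at hcase2
    have hPhi2' : ∀ (φ : Y →ₗ[K] K) (z : Y), (Phi ι φ z).c2 = 0 := by
      intro φ z
      funext l
      by_cases hl : l = k
      · subst hl
        funext v
        rw [Phi_c2, ← rm_rm, hcase2, map_zero]; rfl
      · exact hPhi2 φ z l hl
    by_cases hcase1 : ∃ y : Y, y ≠ 0
    · obtain ⟨y, hy⟩ := hcase1
      have hy' : y <• (1 : Alg K ι) ≠ 0 := by rwa [rm_one]
      obtain ⟨v, hv⟩ := exists_comp_ne hy'
      rw [rm_one] at hv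
      set y₀ := y <• (E v : Alg K ι) with hy₀
      have hE0 : y₀ <• (E v : Alg K ι) = y₀ := by rw [hy₀, rm_rm, E_mul_self]
      obtain ⟨φ, hφ⟩ := exists_functional (K := K) _ hv
      refine key (E v * Om) y₀ (lmul (E v) ∘ₗ Phi ι φ) ?_ ?_ ?_ ?_
        (inAdd_EOm _)
      · change E v * Phi ι φ y₀ = _
        rw [E_mul_colour3 v _ (hPhi0 φ y₀) (hPhi1' φ y₀) (hPhi2' φ y₀), Phi_c3, hE0, hφ]
        rw [one_smul, mul_one]
      · intro h
        have := congrFun (congrArg Alg.c3 h) v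
        simp at this
      · intro z
        change E v * Phi ι φ z ∈ _
        rw [E_mul_colour3 v _ (hPhi0 φ z) (hPhi1' φ z) (hPhi2' φ z)]
        exact mem_cyc.2 ⟨_, rfl⟩
      · intro c hc
        have hc0 : c.c0 v = 0 := by
          have := congrFun (congrArg Alg.c3 hc) v
          simpa using this
        exact rm_zero_of hE0 (fun l hl => h1 l hl _) (h3 _) c hc0 (Or.inr (hcase2 _))
          (Or.inr (hcase3 _))
    · push Not at hcase1
      have : Subsingleton Y := ⟨fun a b => by rw [hcase1 a, hcase1 b]⟩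
      exact inAdd_of_subsingleton

end Pool.Agent.LibO1
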