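import Pool.Agent.LibO1.ResG
import Pool.Agent.LibO1.Nak

/-!
MP_b19625: lifting maps; the radical of `A / soc A`.
-/

set_option autoImplicit false
set_option linter.unusedSectionVars false

open scoped RightActions

namespace Pool.Agent.LibO1

open Finset Alg MulOpposite Module

section

variable {R : Type} [Ring R] {X Y P Q : Type} [AddCommGroup X] [Module R X] [AddCommGroup Y]
  [Module R Y] [AddCommGroup P] [Module R P] [AddCommGroup Q] [Module R Q]

/-- Every map `P → X` lifts along `f : Y → X`. -/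
def Lifts (f : Y →ₗ[R] X) (P : Type) [AddCommGroup P] [Module R P] : Prop :=
  ∀ φ : P →ₗ[R] X, ∃ ψ : P →ₗ[R] Y, f ∘ₗ ψ = φ

theorem Lifts.prod {f : Y →ₗ[R] X} (h1 : Lifts f P) (h2 : Lifts f Q) : Lifts f (P × Q) := by
  intro φ
  obtain ⟨ψ₁, h3⟩ := h1 (φ ∘ₗ LinearMap.inl R P Q)
  obtain ⟨ψ₂, h4⟩ := h2 (φ ∘ₗ LinearMap.inr R P Q)
  refine ⟨ψ₁.coprod ψ₂, ?_⟩
  rw [LinearMap.comp_coprod, h3, h4]
  exact LinearMap.coprod_comp_inl_inr φ

theorem Lifts.pi {f : Y →ₗ[R] X} {J : Type} [Fintype J] [DecidableEq J] {P : J → Type}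
    [∀ j, AddCommGroup (P j)] [∀ j, Module R (P j)] (h : ∀ j, Lifts f (P j)) :
    Lifts f (∀ j, P j) := by
  intro φ
  choose ψ hψ using fun j => h j (φ ∘ₗ LinearMap.single R P j)
  refine ⟨∑ j, ψ j ∘ₗ LinearMap.proj j, ?_⟩
  refine LinearMap.pi_ext' fun j => LinearMap.ext fun z => ?_
  have h1 := LinearMap.congr_fun (hψ j) z
  simp only [LinearMap.comp_apply, LinearMap.sum_apply, LinearMap.proj_apply,
    LinearMap.coe_single] at h1 ⊢
  rw [Finset.sum_eq_single j, Pi.single_eq_same, h1]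
  · intro b _ hb
    rw [Pi.single_eq_of_ne hb, map_zero]
  · intro h; exact absurd (Finset.mem_univ j) h

end

variable {K : Type} [Field K] {ι : Type} [Fintype ι] [DecidableEq ι]

theorem lifts_GM {X Y : Type} [AddCommGroup X] [Module (Alg K ι)ᵐᵒᵖ X] [AddCommGroup Y]
    [Module (Alg K ι)ᵐᵒᵖ Y] {f : Y →ₗ[(Alg K ι)ᵐᵒᵖ] X} (h1 : Lifts f (Alg K ι))
    (h2 : Lifts f (Bar K ι)) (h3 : ∀ k : ι, Lifts f (cyc (t k : Alg K ι)))
    (h4 : ∀ k : ι, Lifts f (cyc (t2 k : Alg K ι))) (h5 : Lifts f (cyc (Om : Alg K ι))) :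
    Lifts f (GM K ι) :=
  h1.prod (h2.prod ((Lifts.pi h3).prod ((Lifts.pi h4).prod h5)))

theorem Om_comm (a : Alg K ι) : a * Om = Om * a := by
  ext <;> simp

/-- Left multiplication on `A / soc A`. -/
noncomputable def lbar (a : Alg K ι) : Bar K ι →ₗ[(Alg K ι)ᵐᵒᵖ] Bar K ι :=
  Submodule.mapQ _ _ (lmul a) (by
    rintro _ ⟨c, rfl⟩
    refine ⟨a * c, ?_⟩
    change Om * (a * c) = a * (Om * c)
    rw [← mul_assoc, ← mul_assoc, Om_comm])

/-- The class of an element. -/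
abbrev mkB (c : Alg K ι) : Bar K ι := Submodule.Quotient.mk c

theorem mkB_surj (q : Bar K ι) : ∃ c, mkB c = q := Submodule.Quotient.mk_surjective _ q

theorem lbar_mk (a c : Alg K ι) : lbar a (mkB c) = mkB (a * c) := rfl

theorem mkB_rm (c a : Alg K ι) : mkB c <• a = mkB (c * a) := rfl

theorem mkB_Om (e : Alg K ι) : mkB (Om * e) = 0 :=
  (Submodule.Quotient.mk_eq_zero _).2 ⟨e, rfl⟩

theorem mkB_add (a b : Alg K ι) : mkB (a + b) = mkB a + mkB b := rfl

theorem mkB_sum {α : Type} (s : Finset α) (f : α → Alg K ι) :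
    mkB (∑ i ∈ s, f i) = ∑ i ∈ s, mkB (f i) := map_sum (Submodule.mkQ _) f s

/-- Homomorphisms from `A / soc A`. -/
noncomputable def barHom {Y : Type} [AddCommGroup Y] [Module (Alg K ι)ᵐᵒᵖ Y] (y : Y)
    (hy : y <• (Om : Alg K ι) = 0) : Bar K ι →ₗ[(Alg K ι)ᵐᵒᵖ] Y :=
  Submodule.liftQ _ (orb y) (by
    rintro _ ⟨c, rfl⟩
    rw [LinearMap.mem_ker]
    change y <• (Om * c) = 0
    rw [← rm_rm, hy, smul_zero])

theorem barHom_mk {Y : Type} [AddCommGroup Y] [Module (Alg K ι)ᵐᵒᵖ Y] (y : Y)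
    (hy : y <• (Om : Alg K ι) = 0) (c : Alg K ι) : barHom y hy (mkB c) = y <• c := rfl

/-- The elements of the radical. -/
theorem exists_decomp (c : Alg K ι) (hc : c.c0 = 0) :
    ∃ (d : ι → Alg K ι) (e : Alg K ι), c = ∑ k, t k * d k + Om * e := by
  refine ⟨fun k => ⟨fun v => c.c1 k (v + 2), Pi.single k (fun v => c.c2 k (v + 2)), 0, 0⟩,
    ⟨c.c3, 0, 0, 0⟩, ?_⟩
  ext
  · rename_i v
    simp [sum_c0, hc]
  · rename_i l v
    simp only [add_c1, sum_c1, Pi.add_apply, Finset.sum_apply, mul_c1, t_c0, t_c1, Om_c0, Om_c1,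
      Pi.zero_apply, zero_mul, zero_add, add_zero, z12]
    simp
  · rename_i l v
    simp only [add_c2, sum_c2, Pi.add_apply, Finset.sum_apply, mul_c2, t_c0, t_c1, t_c2, Om_c0,
      Om_c1, Om_c2, Pi.zero_apply, zero_mul, zero_add, add_zero]
    rw [Finset.sum_eq_single l]
    · simp [z12]
    · intro b _ hb
      simp [Ne.symm hb]
    · intro h; exact absurd (Finset.mem_univ l) h
  · rename_i v
    simp [sum_c3]

theorem exists_sbar (k : ι) : ∃ s : cyc (t2 k : Alg K ι) →ₗ[(Alg K ι)ᵐᵒᵖ] Bar K ι,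
    ∀ c (hc : t2 k * c ∈ cyc (t2 k : Alg K ι)), s ⟨t2 k * c, hc⟩ = mkB (t k * c) := by
  obtain ⟨s, hs⟩ := exists_cyc_hom (t2 k : Alg K ι) (mkB (t k : Alg K ι)) (by
    intro c hc
    rw [mkB_rm, Submodule.Quotient.mk_eq_zero]
    have h0 : ∀ v, c.c0 v = 0 := by
      intro v
      have := congrFun (congrFun (congrArg Alg.c2 hc) k) (v + 1)
      simpa [z12] using this
    have h1 : ∀ v, c.c1 k v = 0 := by
      intro v
      have := congrFun (congrArg Alg.c3 hc) (v + 1)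
      simpa [z12] using this
    refine ⟨⟨fun v => c.c2 k (v + 1), 0, 0, 0⟩, ?_⟩
    change Om * _ = t k * c
    ext
    · simp
    · simp [h0]
    · rename_i l v
      by_cases hl : l = k
      · subst hl; simp [h0, h1]
      · simp [hl]
    · simp)
  exact ⟨s, fun c hc => hs c hc⟩

/-- Multiplication by `t k` from the left, as a map `A / soc A → A`. -/
noncomputable def tbar (k : ι) : Bar K ι →ₗ[(Alg K ι)ᵐᵒᵖ] Alg K ι :=
  Submodule.liftQ _ (lmul (t k)) (by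
    rintro _ ⟨c, rfl⟩
    rw [LinearMap.mem_ker]
    change t k * (Om * c) = 0
    rw [← mul_assoc, t_mul_Om, zero_mul])

theorem tbar_mk (k : ι) (c : Alg K ι) : tbar k (mkB c) = t k * c := rfl

theorem t_mul_decomp (k : ι) (d : ι → Alg K ι) (e : Alg K ι) :
    t k * (∑ l, t l * d l + Om * e) = t2 k * d k := by
  rw [mul_add, Finset.mul_sum, Finset.sum_eq_single k]
  · rw [← mul_assoc, t_mul_self, ← mul_assoc, t_mul_Om, zero_mul, add_zero]
  · intro l _ hl
    rw [← mul_assoc, t_mul_t (Ne.symm hl), zero_mul]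
  · intro h; exact absurd (Finset.mem_univ k) h

/-- The submodules `{c0 v = 0}` of `A / soc A` lie in `add M`. -/
theorem inAdd_Q (v : ZMod 3) (Q : Submodule (Alg K ι)ᵐᵒᵖ (Bar K ι))
    (hQ : ∀ c : Alg K ι, mkB c ∈ Q ↔ c.c0 v = 0) : InAdd (Alg K ι)ᵐᵒᵖ (GM K ι) Q := by
  choose s hs using fun k : ι => exists_sbar (K := K) k
  have h1 : ∀ (k : ι) (q : Q), (tbar k ∘ₗ lbar (E v) ∘ₗ Q.subtype) q ∈ cyc (t2 k : Alg K ι) := by
    intro k q
    obtain ⟨c, hc⟩ := mkB_surj q.1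
    have hcv : c.c0 v = 0 := by rw [← hQ, hc]; exact q.2
    change tbar k (lbar (E v) q.1) ∈ _
    rw [← hc, lbar_mk, tbar_mk]
    obtain ⟨d, e, hde⟩ := exists_decomp (E v * c) (by
      funext u
      by_cases hu : u = v
      · subst hu; simp [hcv]
      · simp [hu])
    rw [hde, t_mul_decomp]
    exact ⟨d k, rfl⟩
  have h2 : ∀ (x : (∀ k : ι, cyc (t2 k : Alg K ι)) × Bar K ι),
      ((lbar (E v) ∘ₗ ∑ k, s k ∘ₗ LinearMap.proj k).coprod (lbar (1 - E v))) x ∈ Q := by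
    rintro ⟨x, q⟩
    rw [LinearMap.coprod_apply]
    refine Q.add_mem ?_ ?_
    · rw [LinearMap.comp_apply, LinearMap.sum_apply, map_sum]
      refine Q.sum_mem fun k _ => ?_
      obtain ⟨c, hc⟩ := mem_cyc.1 (x k).2
      have h3 : x k = ⟨t2 k * c, mem_cyc.2 ⟨c, rfl⟩⟩ := Subtype.ext hc.symm
      change lbar (E v) (s k (x k)) ∈ Q
      rw [h3, hs, lbar_mk, hQ]
      simp
    · obtain ⟨c, rfl⟩ := mkB_surj q
      change lbar (1 - E v) (mkB c) ∈ Q
      rw [lbar_mk, hQ]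
      simp
  refine (inAdd_prod (inAdd_pi fun k => inAdd_t2 k) inAdd_Bar).retract
    ((LinearMap.pi fun k => LinearMap.codRestrict _ _ (h1 k)).prod (lbar (1 - E v) ∘ₗ Q.subtype))
    (LinearMap.codRestrict _ _ h2) ?_
  refine LinearMap.ext fun q => Subtype.ext ?_
  obtain ⟨c, hc⟩ := mkB_surj q.1
  have hcv : c.c0 v = 0 := by rw [← hQ, hc]; exact q.2
  obtain ⟨d, e, hde⟩ := exists_decomp (E v * c) (by
    funext u
    by_cases hu : u = v
    · subst hu; simp [hcv]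
    · simp [hu])
  have h3 : ∀ k, (LinearMap.codRestrict _ _ (h1 k)) q =
      (⟨t2 k * d k, mem_cyc.2 ⟨d k, rfl⟩⟩ : cyc (t2 k : Alg K ι)) := by
    intro k
    apply Subtype.ext
    change tbar k (lbar (E v) q.1) = _
    rw [← hc, lbar_mk, tbar_mk, hde, t_mul_decomp]
  change lbar (E v) ((∑ k, s k ∘ₗ LinearMap.proj k) fun k =>
    (LinearMap.codRestrict _ _ (h1 k)) q) + lbar (1 - E v) (lbar (1 - E v) q.1) = q.1
  rw [LinearMap.sum_apply]
  simp only [LinearMap.comp_apply, LinearMap.proj_apply]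
  rw [Finset.sum_congr rfl fun k _ => by rw [h3 k, hs], ← mkB_sum, lbar_mk, ← hc, lbar_mk, lbar_mk]
  have h4 : (1 - E v : Alg K ι) * (1 - E v) = 1 - E v := by
    rw [mul_sub, mul_one, sub_mul, one_mul, E_mul_self, sub_self, sub_zero]
  rw [← mul_assoc, h4]
  have h5 : E v * (∑ k, t k * d k) + Om * (E v * e) = E v * c := by
    rw [← mul_assoc, ← Om_comm, mul_assoc, ← mul_add, ← hde, ← mul_assoc, E_mul_self]
  have h6 : mkB (E v * ∑ k, t k * d k) = mkB (E v * c) := by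
    rw [← h5, mkB_add, mkB_Om, add_zero]
  rw [h6, ← mkB_add, ← add_mul]
  congr 1
  rw [add_sub_cancel, one_mul]

end Pool.Agent.LibO1
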