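import Pool.Agent.LibO1.Gl

/-!
MP_b19625: endomorphism rings of finite-dimensional modules are Noetherian.
-/

set_option autoImplicit false

namespace Pool.Agent.LibO1

theorem isNoetherian_gam (K : Type) [Field K] {R : Type} [Ring R] [Algebra K R] [Module.Finite K R]
    {M : Type} [AddCommGroup M] [Module R M] [Module.Finite R M] : IsNoetherianRing (Gam R M) := by
  let _ : Module K M := Module.compHom M (algebraMap K R)
  have _ : IsScalarTower K R M := ⟨fun c r m => by
    rw [Algebra.smul_def, mul_smul]; rfl⟩
  have _ : Module.Finite K M := Module.Finite.trans R M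
  have _ : SMulCommClass R K M := IsScalarTower.to_smulCommClass'
  have hfin : Module.Finite K (M →ₗ[R] M) :=
    Module.Finite.of_injective (LinearMap.restrictScalarsₗ K R M M K)
      (LinearMap.restrictScalars_injective K)
  have _ : Module.Finite K (Module.End R M) := hfin
  have _ : Module.Finite K (Gam R M) :=
    Module.Finite.equiv (MulOpposite.opLinearEquiv K : Module.End R M ≃ₗ[K] (Module.End R M)ᵐᵒᵖ)
  exact IsNoetherianRing.of_finite K (Gam R M)

end Pool.Agent.LibO1
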