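import Pool.Agent.LibO1.Rigid

/-!
MP_b19625: the rigid module has many summands.
-/

set_option autoImplicit false
set_option linter.unusedSectionVars false

open scoped RightActions

namespace Pool.Agent.LibO1

open Finset Alg MulOpposite

variable {K : Type} [Field K] {ι : Type} [Fintype ι] [DecidableEq ι]

theorem E2Om_mem (k : ι) : (E 2 * Om : Alg K ι) ∈ Zm K k := by
  refine mem_cyc.2 ⟨t2 k, ?_⟩
  rw [mul_assoc, t_mul_t2]

theorem socle_mem {k : ι} (U : Submodule (Alg K ι)ᵐᵒᵖ (Zm K k)) (hU : U ≠ ⊥) :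
    (⟨E 2 * Om, E2Om_mem k⟩ : Zm K k) ∈ U := by
  obtain ⟨u, hu, hu0⟩ := U.exists_mem_ne_zero_of_ne_bot hU
  obtain ⟨α, β, γ, h⟩ := Zm_form u.2
  have hu0' : (u : Alg K ι) ≠ 0 := fun h => hu0 (Subtype.ext h)
  have key : ∀ a : Alg K ι, (u : Alg K ι) * a = E 2 * Om →
      (⟨E 2 * Om, E2Om_mem k⟩ : Zm K k) ∈ U := by
    intro a ha
    have h1 : u <• a ∈ U := U.smul_mem _ hu
    have h2 : u <• a = (⟨E 2 * Om, E2Om_mem k⟩ : Zm K k) := Subtype.ext ha
    rwa [h2] at h1
  have c1 : (E 2 * t k * t2 k : Alg K ι) = E 2 * Om := by rw [mul_assoc, t_mul_t2]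
  have c2 : (E 2 * t2 k * t2 k : Alg K ι) = 0 := by rw [mul_assoc, t2_mul_t2, mul_zero]
  have c3 : (E 2 * Om * t2 k : Alg K ι) = 0 := by
    rw [← t_mul_self, ← mul_assoc, prod3, zero_mul]
  by_cases hα : α = 0
  · by_cases hβ : β = 0
    · have hγ : γ ≠ 0 := by
        rintro rfl
        apply hu0'
        rw [h, hα, hβ]
        simp
      apply key (γ⁻¹ • 1)
      rw [h, hα, hβ, zero_smul, zero_smul, zero_add, zero_add, mul_smul_comm, mul_one, smul_smul,
        inv_mul_cancel₀ hγ, one_smul]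
    · apply key (β⁻¹ • t k)
      rw [h, hα, zero_smul, zero_add, mul_smul_comm, add_mul, smul_mul_assoc, smul_mul_assoc,
        prod2, prod3, smul_zero, add_zero, smul_smul, inv_mul_cancel₀ hβ, one_smul]
  · apply key (α⁻¹ • t2 k)
    rw [h, mul_smul_comm, add_mul, add_mul, smul_mul_assoc, smul_mul_assoc, smul_mul_assoc, c1, c2,
      c3, smul_zero, smul_zero, add_zero, add_zero, smul_smul, inv_mul_cancel₀ hα, one_smul]

theorem indec_Zm (k : ι) : Indec (Alg K ι)ᵐᵒᵖ (Zm K k) := by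
  have hne : (⟨E 2 * Om, E2Om_mem k⟩ : Zm K k) ≠ 0 := fun h =>
    E2Om_ne (congrArg Subtype.val h)
  refine ⟨⟨_, _, hne⟩, fun U V hUV => ?_⟩
  by_contra h
  push Not at h
  exact hne (Submodule.disjoint_def.1 hUV.disjoint _ (socle_mem U h.1) (socle_mem V h.2))

theorem Indec.congr {R : Type} [Ring R] {X Y : Type} [AddCommGroup X] [Module R X]
    [AddCommGroup Y] [Module R Y] (e : X ≃ₗ[R] Y) (h : Indec R X) : Indec R Y := by
  obtain ⟨h1, h2⟩ := h
  refine ⟨e.symm.toEquiv.nontrivial, fun U V hUV => ?_⟩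
  have h3 : IsCompl (U.map e.symm.toLinearMap) (V.map e.symm.toLinearMap) :=
    (Submodule.orderIsoMapComap e.symm).isCompl hUV
  rcases h2 _ _ h3 with h4 | h4
  · left
    exact (Submodule.map_eq_bot_iff (e := e.symm)).1 h4
  · right
    exact (Submodule.map_eq_bot_iff (e := e.symm)).1 h4

theorem not_iso {i j : ι} (hij : i ≠ j) : ¬ Nonempty (Zm K i ≃ₗ[(Alg K ι)ᵐᵒᵖ] Zm K j) := by
  rintro ⟨e⟩
  have hmem : (E 2 * t i : Alg K ι) ∈ Zm K i := ⟨1, mul_one _⟩
  let z : Zm K i := ⟨_, hmem⟩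
  have h1 : ∀ y : Zm K j, y <• (t i : Alg K ι) = 0 := by
    intro y
    obtain ⟨α, β, γ, h⟩ := Zm_form y.2
    apply Subtype.ext
    change (y : Alg K ι) * t i = 0
    rw [h, add_mul, add_mul, smul_mul_assoc, smul_mul_assoc, smul_mul_assoc,
      prod1' (Ne.symm hij), prod2' (Ne.symm hij), prod3]
    simp
  have h2 : e (z <• (t i : Alg K ι)) = 0 := by rw [map_smul, h1]
  have h3 : z <• (t i : Alg K ι) = 0 := e.map_eq_zero_iff.1 h2
  have h4 : (E 2 * t i * t i : Alg K ι) = 0 := congrArg Subtype.val h3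
  rw [prod1] at h4
  exact E2t2_ne i h4

section

variable {R : Type} [Ring R] {J : Type} [DecidableEq J] {X : J → Type}
  [∀ j, AddCommGroup (X j)] [∀ j, Module R (X j)]

theorem isCompl_single (i : J) :
    IsCompl (LinearMap.range (LinearMap.single R X i)) (LinearMap.ker (LinearMap.proj i :
      (∀ j, X j) →ₗ[R] X i)) := by
  rw [isCompl_iff, Submodule.disjoint_def, codisjoint_iff, eq_top_iff]
  constructor
  · rintro _ ⟨x, rfl⟩ hx
    have : x = 0 := by simpa using hx
    rw [this, map_zero]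
  · intro x _
    refine Submodule.mem_sup.2 ⟨LinearMap.single R X i (x i), ⟨_, rfl⟩,
      x - LinearMap.single R X i (x i), ?_, by abel⟩
    simp [LinearMap.mem_ker]

/-- The summand. -/
noncomputable def singleEquiv (i : J) : X i ≃ₗ[R] LinearMap.range (LinearMap.single R X i) :=
  LinearEquiv.ofInjective _ (by
    intro x y h
    have := congrFun h i
    simpa using this)

end

theorem finite_cyc (a : Alg K ι) : Module.Finite (Alg K ι)ᵐᵒᵖ (cyc a) := by
  have := finite_self (Alg K ι)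
  exact Module.Finite.range (lmul a)

theorem oneGE (N : ℕ) : OneGE (Alg K (Fin (N + 2))) N := by
  have hnt : Nontrivial (Fin (N + 2)) := inferInstance
  refine ⟨∀ k : Fin (N + 2), Zm K k, inferInstance, inferInstance, ?_, ?_, ?_⟩
  · have := fun k : Fin (N + 2) => finite_cyc (E 2 * t k : Alg K (Fin (N + 2)))
    exact Module.Finite.pi
  · intro X Y _ _ _ _ hX hY
    exact ExtZero.add (extZero_pi_left fun i => extZero_pi_right fun j => extZero_Zm i j) hX hY
  · refine ⟨fun i => LinearMap.range (LinearMap.single _ (fun k : Fin (N + 2) => Zm K k)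
      (Fin.castAdd 2 i)), fun i => ⟨_, isCompl_single _⟩, fun i => (indec_Zm _).congr
        (singleEquiv (X := fun k : Fin (N + 2) => Zm K k) _), fun i j hij => ?_⟩
    rintro ⟨e⟩
    have h1 : Fin.castAdd 2 i ≠ Fin.castAdd 2 j := fun h => hij (Fin.castAdd_injective _ _ h)
    exact not_iso (K := K) h1 ⟨(singleEquiv (X := fun k : Fin (N + 2) => Zm K k) _).trans
      (e.trans (singleEquiv (X := fun k : Fin (N + 2) => Zm K k) _).symm)⟩

end Pool.Agent.LibO1
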