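import Pool.Agent.LibO1.Sym

/-!
MP_b19625: the algebra has exactly three simple modules.
-/

set_option autoImplicit false
set_option linter.unusedSectionVars false

namespace Pool.Agent.LibO1

open Finset Alg MulOpposite

variable {K : Type} [Field K] {ι : Type} [Fintype ι] [DecidableEq ι]

/-- The characters. -/
def chi (v : ZMod 3) : (Alg K ι)ᵐᵒᵖ →+* K where
  toFun x := x.unop.c0 v
  map_one' := rfl
  map_mul' _ _ := mul_comm _ _
  map_zero' := rfl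
  map_add' _ _ := rfl

theorem chi_apply (v : ZMod 3) (x : (Alg K ι)ᵐᵒᵖ) : chi v x = x.unop.c0 v := rfl

theorem chi_surjective (v : ZMod 3) : Function.Surjective (chi v : (Alg K ι)ᵐᵒᵖ →+* K) := fun c =>
  ⟨op ⟨fun _ => c, 0, 0, 0⟩, rfl⟩

theorem chi_ker_max (v : ZMod 3) : (RingHom.ker (chi v : (Alg K ι)ᵐᵒᵖ →+* K)).IsMaximal :=
  RingHom.ker_isMaximal_of_surjective _ (chi_surjective v)

theorem isUnit_one_sub (x : (Alg K ι)ᵐᵒᵖ) (hx : x.unop.c0 = 0) : IsUnit (1 - x) := by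
  apply IsNilpotent.isUnit_one_sub
  refine ⟨4, unop_injective ?_⟩
  have h := sq_sq_eq_zero x.unop hx
  rw [unop_pow, unop_zero, ← h]
  noncomm_ring

theorem mem_of_c0 {J : Ideal (Alg K ι)ᵐᵒᵖ} (hJ : J.IsMaximal) (x : (Alg K ι)ᵐᵒᵖ)
    (hx : x.unop.c0 = 0) : x ∈ J := by
  by_contra h
  have h1 : J ⊔ Ideal.span {x} = ⊤ := by
    apply hJ.1.2
    refine lt_of_le_of_ne le_sup_left fun h2 => h ?_
    rw [h2]
    exact Ideal.mem_sup_right (Ideal.subset_span rfl)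
  have h2 : (1 : (Alg K ι)ᵐᵒᵖ) ∈ J ⊔ Ideal.span {x} := by rw [h1]; trivial
  obtain ⟨j, hj, y, hy, hjy⟩ := Submodule.mem_sup.1 h2
  obtain ⟨r, rfl⟩ := Ideal.mem_span_singleton'.1 hy
  have h3 : j = 1 - r * x := by rw [← hjy, add_sub_cancel_right]
  have h4 : IsUnit j := by
    rw [h3]
    apply isUnit_one_sub
    funext v
    rw [unop_mul, mul_c0, hx]
    simp
  exact hJ.ne_top (Ideal.eq_top_of_isUnit_mem _ hj h4)

theorem exists_eq_ker {J : Ideal (Alg K ι)ᵐᵒᵖ} (hJ : J.IsMaximal) :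
    ∃ v, J = RingHom.ker (chi v : (Alg K ι)ᵐᵒᵖ →+* K) := by
  have h1 : ∃ v, op (E v : Alg K ι) ∉ J := by
    by_contra h
    push Not at h
    apply hJ.ne_top
    rw [Ideal.eq_top_iff_one]
    have h2 : (1 : (Alg K ι)ᵐᵒᵖ) = ∑ v, op (E v : Alg K ι) := by
      rw [← op_one, ← sum_E]
      exact map_sum (opAddEquiv : Alg K ι ≃+ (Alg K ι)ᵐᵒᵖ) _ _
    rw [h2]
    exact Submodule.sum_mem _ fun v _ => h v
  obtain ⟨v, hv⟩ := h1
  refine ⟨v, ((chi_ker_max v).eq_of_le hJ.ne_top ?_).symm⟩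
  intro x hx
  have hx' : x.unop.c0 v = 0 := hx
  have h1 : J ⊔ Ideal.span {op (E v : Alg K ι)} = ⊤ := by
    apply hJ.1.2
    refine lt_of_le_of_ne le_sup_left fun h2 => hv ?_
    rw [h2]
    exact Ideal.mem_sup_right (Ideal.subset_span rfl)
  have h2 : (1 : (Alg K ι)ᵐᵒᵖ) ∈ J ⊔ Ideal.span {op (E v : Alg K ι)} := by rw [h1]; trivial
  obtain ⟨j, hj, y, hy, hjy⟩ := Submodule.mem_sup.1 h2
  obtain ⟨r, rfl⟩ := Ideal.mem_span_singleton'.1 hy
  rw [← mul_one x, ← hjy, mul_add]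
  refine J.add_mem (J.mul_mem_left _ hj) (mem_of_c0 hJ _ ?_)
  funext u
  simp only [unop_mul, unop_op, mul_c0, E_c0]
  split_ifs with h3
  · subst h3; rw [hx']; simp
  · simp

theorem ker_inj {v u : ZMod 3}
    (e : ((Alg K ι)ᵐᵒᵖ ⧸ RingHom.ker (chi v : (Alg K ι)ᵐᵒᵖ →+* K)) ≃ₗ[(Alg K ι)ᵐᵒᵖ]
      ((Alg K ι)ᵐᵒᵖ ⧸ RingHom.ker (chi u : (Alg K ι)ᵐᵒᵖ →+* K))) : v = u := by
  by_contra hvu
  set I := RingHom.ker (chi v : (Alg K ι)ᵐᵒᵖ →+* K) with hI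
  set J := RingHom.ker (chi u : (Alg K ι)ᵐᵒᵖ →+* K) with hJ
  have h1 : op (E v : Alg K ι) • (Submodule.Quotient.mk 1 : (Alg K ι)ᵐᵒᵖ ⧸ I) =
      Submodule.Quotient.mk 1 := by
    rw [← Submodule.Quotient.mk_smul, Submodule.Quotient.eq, hI, RingHom.mem_ker, chi_apply]
    simp
  have h2 : ∀ y : (Alg K ι)ᵐᵒᵖ ⧸ J, op (E v : Alg K ι) • y = 0 := by
    intro y
    obtain ⟨y, rfl⟩ := Submodule.Quotient.mk_surjective _ y
    rw [← Submodule.Quotient.mk_smul, Submodule.Quotient.mk_eq_zero, hJ, RingHom.mem_ker,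
      chi_apply]
    simp [Ne.symm hvu]
  have h3 : e (Submodule.Quotient.mk 1) = 0 := by
    rw [← h1, map_smul, h2]
  have h4 : (Submodule.Quotient.mk 1 : (Alg K ι)ᵐᵒᵖ ⧸ I) = 0 := by
    rw [← e.map_eq_zero_iff]; exact h3
  rw [Submodule.Quotient.mk_eq_zero] at h4
  have h5 : (1 : K) = 0 := h4
  exact one_ne_zero h5

theorem numSimples_eq : numSimples (Alg K ι)ᵐᵒᵖ = 3 := by
  have h : Function.Bijective (fun v : ZMod 3 =>
      (Quotient.mk (simpleSetoid (Alg K ι)ᵐᵒᵖ)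
        ⟨RingHom.ker (chi v : (Alg K ι)ᵐᵒᵖ →+* K), chi_ker_max v⟩)) := by
    constructor
    · intro v u hvu
      obtain ⟨e⟩ := Quotient.exact hvu
      exact ker_inj e
    · intro q
      induction q using Quotient.inductionOn with
      | _ J =>
        obtain ⟨J, hJ⟩ := J
        obtain ⟨v, rfl⟩ := exists_eq_ker hJ
        exact ⟨v, rfl⟩
  rw [numSimples, ← Nat.card_eq_of_bijective _ h, Nat.card_zmod]

end Pool.Agent.LibO1
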