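import Pool.Agent.LibO1.Base
import Pool.Agent.LibO1.Noeth
import Pool.Agent.LibO1.Rigid2
import Pool.Agent.LibO1.Simp

/-!
MP_b19625: the representation dimension is at most three; conclusion.
-/

set_option autoImplicit false
set_option linter.unusedSectionVars false

open scoped RightActions

namespace Pool.Agent.LibO1

open Finset Alg MulOpposite Module

variable {K : Type} [Field K] {ι : Type} [Fintype ι] [DecidableEq ι]

theorem isCogen_GM : IsCogen (Alg K ι)ᵐᵒᵖ (GM K ι) := by
  intro X _ _ hX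
  let _ := kMod K (A := Alg K ι) X
  have _ := kTower K (A := Alg K ι) X
  have _ : Module.Finite K (Alg K ι)ᵐᵒᵖ := inferInstance
  have _ : Module.Finite K X := Module.Finite.trans (Alg K ι)ᵐᵒᵖ X
  let b := Module.finBasis K X
  refine ⟨finrank K X, LinearMap.pi fun i => LinearMap.inl _ _ _ ∘ₗ Phi ι (b.coord i), ?_⟩
  rw [injective_iff_map_eq_zero]
  intro x hx
  rw [← b.forall_coord_eq_zero_iff]
  intro i
  have h1 : (Phi ι (b.coord i) x : Alg K ι) = 0 := congrArg Prod.fst (congrFun hx i)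
  rw [← sum_Phi_c3 (ι := ι) (b.coord i) x, h1]
  simp

theorem finite_GM : Module.Finite (Alg K ι)ᵐᵒᵖ (GM K ι) := by
  have h1 : Module.Finite (Alg K ι)ᵐᵒᵖ (Alg K ι) := finite_self (Alg K ι)
  have h2 : ∀ a : Alg K ι, Module.Finite (Alg K ι)ᵐᵒᵖ (cyc a) := fun a =>
    Module.Finite.range (lmul a)
  have h3 : Module.Finite (Alg K ι)ᵐᵒᵖ (Bar K ι) := inferInstance
  have h4 : Module.Finite (Alg K ι)ᵐᵒᵖ (∀ k : ι, cyc (t k : Alg K ι)) := inferInstance
  have h5 : Module.Finite (Alg K ι)ᵐᵒᵖ (∀ k : ι, cyc (t2 k : Alg K ι)) := inferInstance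
  have h6 : Module.Finite (Alg K ι)ᵐᵒᵖ (cyc (Om : Alg K ι)) := h2 _
  infer_instance

/-- The representation dimension is at most three. -/
theorem repDimLE [Nonempty ι] : RepDimLE (Alg K ι) 3 := by
  have hfin : Module.Finite (Alg K ι)ᵐᵒᵖ (GM K ι) := finite_GM
  have hKfin : Module.Finite K (Alg K ι)ᵐᵒᵖ := inferInstance
  have hN : IsNoetherianRing (Alg K ι)ᵐᵒᵖ := IsNoetherianRing.of_finite K _
  refine ⟨GM K ι, inferInstance, inferInstance, hfin, inAdd_A.congr (opEquiv _), isCogen_GM, ?_⟩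
  refine glDimLE_of_res (isNoetherian_gam K) fun m n G => Res.exists_free G ?_
  let _ := kMod K (A := Alg K ι) (LinearMap.ker G)
  have _ := kTower K (A := Alg K ι) (LinearMap.ker G)
  have h1 : Module.Finite (Alg K ι)ᵐᵒᵖ (LinearMap.ker G) := inferInstance
  have _ : Module.Finite K (LinearMap.ker G) :=
    Module.Finite.trans (Alg K ι)ᵐᵒᵖ (LinearMap.ker G)
  exact res_all _ _ (Nat.lt_succ_self _)

theorem inC [Nonempty ι] : InC K (Alg K ι) where
  fin := inferInstance
  nontriv := inferInstance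
  conn := connected
  notSemisimple := not_semisimple
  gendo := isGendoSym_of_isSym K _ inferInstance isSym
  cond := Or.inr repDimLE

end Pool.Agent.LibO1
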