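import Pool.Agent.LibO1.Add
import Pool.Agent.LibO1.Gl

/-!
MP_b19625: `add M`-resolutions of length one, general facts.
-/

set_option autoImplicit false

namespace Pool.Agent.LibO1

section

variable (R : Type) [Ring R] (M : Type) [AddCommGroup M] [Module R M]

/-- `X` has an `add M`-resolution of length one. -/
def Res (X : Type) [AddCommGroup X] [Module R X] : Prop :=
  ∃ (M₀ : Type) (_ : AddCommGroup M₀) (_ : Module R M₀) (f : M₀ →ₗ[R] X), InAdd R M M₀ ∧
    (∀ φ : M →ₗ[R] X, ∃ ψ : M →ₗ[R] M₀, f ∘ₗ ψ = φ) ∧ InAdd R M (LinearMap.ker f)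

end

variable {R : Type} [Ring R] {M : Type} [AddCommGroup M] [Module R M]

theorem Res.exists_free {m n : ℕ} (G : (Fin m → M) →ₗ[R] (Fin n → M))
    (h : Res R M (LinearMap.ker G)) :
    ∃ (r : ℕ) (F : (Fin r → M) →ₗ[R] (Fin m → M)), G ∘ₗ F = 0 ∧
      (∀ ξ : M →ₗ[R] (Fin m → M), G ∘ₗ ξ = 0 → ∃ η : M →ₗ[R] (Fin r → M), F ∘ₗ η = ξ) ∧
      InAdd R M (LinearMap.ker F) := by
  obtain ⟨M₀, _, _, f, ⟨r, i, p, hpi⟩, h2, h3⟩ := h
  have hpi' : ∀ z, p (i z) = z := fun z => LinearMap.congr_fun hpi z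
  refine ⟨r, (LinearMap.ker G).subtype ∘ₗ f ∘ₗ p, ?_, ?_, ?_⟩
  · ext x : 1
    exact LinearMap.ext fun y => (f (p (LinearMap.single R (fun _ => M) x y))).2
  · intro ξ hξ
    obtain ⟨ψ, hψ⟩ := h2 (LinearMap.codRestrict _ ξ fun z => LinearMap.congr_fun hξ z)
    refine ⟨i ∘ₗ ψ, LinearMap.ext fun z => ?_⟩
    change ((f (p (i (ψ z))) : LinearMap.ker G) : Fin m → M) = ξ z
    rw [hpi']
    exact congrArg Subtype.val (LinearMap.congr_fun hψ z)
  · have hp : InAdd R M (LinearMap.ker p) := by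
      have hr : InAdd R M (Fin r → M) := ⟨r, LinearMap.id, LinearMap.id, rfl⟩
      refine hr.retract
        (LinearMap.ker p).subtype
        (LinearMap.codRestrict _ (LinearMap.id - i ∘ₗ p) fun z => ?_) ?_
      · rw [LinearMap.mem_ker, LinearMap.sub_apply, map_sub, LinearMap.comp_apply, hpi']
        simp
      · refine LinearMap.ext fun z => Subtype.ext ?_
        change z.1 - i (p z.1) = z.1
        rw [LinearMap.mem_ker.1 z.2, map_zero, sub_zero]
    have hz : ∀ z : LinearMap.ker ((LinearMap.ker G).subtype ∘ₗ f ∘ₗ p), f (p z.1) = 0 :=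
      fun z => Subtype.ext (LinearMap.mem_ker.1 z.2)
    refine (inAdd_prod h3 hp).retract
      ((LinearMap.codRestrict _ (p ∘ₗ Submodule.subtype _) hz).prod
        (LinearMap.codRestrict _ ((LinearMap.id - i ∘ₗ p) ∘ₗ Submodule.subtype _) fun z => ?_))
      (LinearMap.codRestrict _ ((i ∘ₗ Submodule.subtype _).coprod (Submodule.subtype _))
        fun z => ?_) ?_
    · change p (z.1 - i (p z.1)) = 0
      rw [map_sub, hpi', sub_self]
    · change ((f (p (i z.1.1 + z.2.1)) : LinearMap.ker G) : Fin m → M) = 0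
      rw [map_add, hpi', LinearMap.mem_ker.1 z.2.2, add_zero, LinearMap.mem_ker.1 z.1.2]
      rfl
    · refine LinearMap.ext fun z => Subtype.ext ?_
      change i (p z.1) + (z.1 - i (p z.1)) = z.1
      abel

/-- Splitting off an object of `add M`. -/
theorem Res.split {X P : Type} [AddCommGroup X] [Module R X] [AddCommGroup P] [Module R P]
    (hP : InAdd R M P) (s : P →ₗ[R] X) (r : X →ₗ[R] P) (hrs : r ∘ₗ s = LinearMap.id)
    (h : Res R M (LinearMap.ker r)) : Res R M X := by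
  obtain ⟨M₀, _, _, f, h1, h2, h3⟩ := h
  have hrs' : ∀ z, r (s z) = z := fun z => LinearMap.congr_fun hrs z
  refine ⟨M₀ × P, inferInstance, inferInstance,
    ((LinearMap.ker r).subtype ∘ₗ f).coprod s, inAdd_prod h1 hP, ?_, ?_⟩
  · intro φ
    obtain ⟨ψ, hψ⟩ := h2 (LinearMap.codRestrict (LinearMap.ker r) (φ - s ∘ₗ r ∘ₗ φ) fun z => by
      change r (φ z - s (r (φ z))) = 0
      rw [map_sub, hrs', sub_self])
    refine ⟨ψ.prod (r ∘ₗ φ), LinearMap.ext fun z => ?_⟩
    change (f (ψ z)).1 + s (r (φ z)) = φ z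
    have h4 := congrArg Subtype.val (LinearMap.congr_fun hψ z)
    change (f (ψ z)).1 = φ z - s (r (φ z)) at h4
    rw [h4]
    abel
  · have hz : ∀ z : LinearMap.ker (((LinearMap.ker r).subtype ∘ₗ f).coprod s),
        z.1.2 = 0 ∧ f z.1.1 = 0 := by
      intro z
      have h4 : (f z.1.1).1 + s z.1.2 = 0 := z.2
      have h5 : z.1.2 = 0 := by
        have h6 := congrArg r h4
        rw [map_add, hrs', LinearMap.mem_ker.1 (f z.1.1).2, zero_add, map_zero] at h6
        exact h6
      refine ⟨h5, Subtype.ext ?_⟩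
      rw [h5, map_zero, add_zero] at h4
      exact h4
    refine h3.retract
      (LinearMap.codRestrict _ (LinearMap.fst R M₀ P ∘ₗ Submodule.subtype _) fun z => (hz z).2)
      (LinearMap.codRestrict _ (LinearMap.inl R M₀ P ∘ₗ Submodule.subtype _) fun z => ?_) ?_
    · change (f z.1).1 + s 0 = 0
      rw [LinearMap.mem_ker.1 z.2, map_zero, add_zero]
      rfl
    · refine LinearMap.ext fun z => Subtype.ext ?_
      exact Prod.ext rfl (hz z).1.symm

end Pool.Agent.LibO1
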