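import Pool.Agent.LibO1.Cyc
import Pool.Agent.LibO1.ExtL
import Pool.Agent.LibO1.Sym

/-!
MP_b19625: the rigid module.
-/

set_option autoImplicit false
set_option linter.unusedSectionVars false

open scoped RightActions

namespace Pool.Agent.LibO1

open Finset Alg MulOpposite

variable {K : Type} [Field K] {ι : Type} [Fintype ι] [DecidableEq ι]

/-- The uniserial module `Z_k` (as a right ideal). -/
abbrev Zm (K : Type) [Field K] {ι : Type} [Fintype ι] [DecidableEq ι] (k : ι) :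
    Submodule (Alg K ι)ᵐᵒᵖ (Alg K ι) := cyc (E 2 * t k : Alg K ι)

theorem Et_mul (k : ι) (c : Alg K ι) :
    E 2 * t k * c = c.c0 0 • (E 2 * t k) + c.c1 k 0 • (E 2 * t2 k) + c.c2 k 0 • (E 2 * Om) := by
  ext
  · simp
  · rename_i l v
    by_cases h : v = 2
    · subst h
      by_cases h1 : l = k
      · subst h1; simp [show (2 : ZMod 3) + 1 = 0 from rfl]
      · simp [h1]
    · simp [h]
  · rename_i l v
    by_cases h : v = 2
    · subst h
      by_cases h1 : l = k
      · subst h1; simp [show (2 : ZMod 3) + 1 = 0 from rfl]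
      · simp [h1]
    · simp [h]
  · rename_i v
    by_cases h : v = 2
    · subst h
      simp [show (2 : ZMod 3) + 1 = 0 from rfl]
    · simp [h]

theorem Zm_form {k : ι} {x : Alg K ι} (hx : x ∈ Zm K k) :
    ∃ α β γ : K, x = α • (E 2 * t k) + β • (E 2 * t2 k) + γ • (E 2 * Om) := by
  obtain ⟨c, rfl⟩ := mem_cyc.1 hx
  exact ⟨_, _, _, Et_mul k c⟩

theorem E2t_ne (k : ι) : (E 2 * t k : Alg K ι) ≠ 0 := by
  intro h
  have := congrFun (congrFun (congrArg Alg.c1 h) k) 2
  simp at this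

theorem E2t2_ne (k : ι) : (E 2 * t2 k : Alg K ι) ≠ 0 := by
  intro h
  have := congrFun (congrFun (congrArg Alg.c2 h) k) 2
  simp at this

theorem E2Om_ne : (E 2 * Om : Alg K ι) ≠ 0 := by
  intro h
  have := congrFun (congrArg Alg.c3 h) 2
  simp at this

theorem prod1 (k : ι) : (E 2 * t k * t k : Alg K ι) = E 2 * t2 k := by
  rw [mul_assoc, t_mul_self]

theorem prod1' {k l : ι} (h : k ≠ l) : (E 2 * t k * t l : Alg K ι) = 0 := by
  rw [mul_assoc, t_mul_t h, mul_zero]

theorem prod2 (k : ι) : (E 2 * t2 k * t k : Alg K ι) = E 2 * Om := by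
  rw [mul_assoc, t2_mul_t]

theorem prod2' {k l : ι} (h : k ≠ l) : (E 2 * t2 k * t l : Alg K ι) = 0 := by
  rw [mul_assoc, t2_mul_t_ne h, mul_zero]

theorem prod3 (l : ι) : (E 2 * Om * t l : Alg K ι) = 0 := by
  rw [mul_assoc, Om_mul_t, mul_zero]

theorem prodE0 (k : ι) : (E 2 * t k * E 0 : Alg K ι) = E 2 * t k := by
  rw [mul_assoc, t_mul_E, ← mul_assoc]
  rw [show (0 : ZMod 3) + 2 = 2 from rfl, E_mul_self]

theorem prodE0' (k : ι) : (E 2 * t k * E 1 : Alg K ι) = 0 := by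
  rw [mul_assoc, t_mul_E, ← mul_assoc]
  rw [show (1 : ZMod 3) + 2 = 0 from rfl, E_mul_E]
  simp [show (2 : ZMod 3) ≠ 0 by decide]

theorem prodE1 (k : ι) : (E 2 * t2 k * E 1 : Alg K ι) = E 2 * t2 k := by
  have h := E_mul_t2 (K := K) (2 : ZMod 3) k
  rw [show (2 : ZMod 3) + 2 = 1 from rfl] at h
  rw [h, mul_assoc, E_mul_self]

theorem prodE2 : (E 2 * Om * E 1 : Alg K ι) = 0 := by
  rw [mul_assoc, ← E_mul_Om, ← mul_assoc, E_mul_E]
  simp [show (2 : ZMod 3) ≠ 1 by decide]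

section

variable {X : Type} [AddCommGroup X] [Module (Alg K ι)ᵐᵒᵖ X] [Module K X]
  [IsScalarTower K (Alg K ι)ᵐᵒᵖ X]

/-- Elements of degree `1` in `Z_k`. -/
theorem Zm_deg_one {k : ι} {x : Alg K ι} (hx : x ∈ Zm K k) (h1 : x * E 1 = x) :
    ∃ β : K, x = β • (E 2 * t2 k) := by
  obtain ⟨α, β, γ, rfl⟩ := Zm_form hx
  refine ⟨β, ?_⟩
  rw [← h1, add_mul, add_mul, smul_mul_assoc, smul_mul_assoc, smul_mul_assoc, prodE0', prodE1,
    prodE2, smul_zero, smul_zero, zero_add, add_zero]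

theorem exists_gen [Nontrivial ι] {i j : ι} (f : Zm K j →ₗ[(Alg K ι)ᵐᵒᵖ] X)
    (g : X →ₗ[(Alg K ι)ᵐᵒᵖ] Zm K i) (hf : Function.Injective f) (hg : Function.Surjective g)
    (hfg : LinearMap.range f = LinearMap.ker g) :
    ∃ e : X, (g e : Alg K ι) = E 2 * t i ∧ e <• (E 0 : Alg K ι) = e ∧
      ∀ l, l ≠ i → e <• (t l : Alg K ι) = 0 := by
  have hgf : ∀ y, g (f y) = 0 := fun y => by
    have : f y ∈ LinearMap.ker g := hfg ▸ LinearMap.mem_range_self f y
    exact this
  have hmem : (E 2 * t i : Alg K ι) ∈ Zm K i := ⟨1, mul_one _⟩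
  obtain ⟨e₀, he₀⟩ := hg ⟨_, hmem⟩
  set e := e₀ <• (E 0 : Alg K ι) with he
  have he1 : (g e : Alg K ι) = E 2 * t i := by
    rw [he, map_smul, he₀]
    exact prodE0 i
  have he2 : e <• (E 0 : Alg K ι) = e := by rw [he, rm_rm, E_mul_self]
  have hy : ∀ l, l ≠ i → ∃ β : K, ∃ y : Zm K j, f y = e <• (t l : Alg K ι) ∧
      (y : Alg K ι) = β • (E 2 * t2 j) := by
    intro l hl
    have h1 : e <• (t l : Alg K ι) ∈ LinearMap.range f := by
      rw [hfg, LinearMap.mem_ker, map_smul]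
      apply Subtype.ext
      change (g e : Alg K ι) * t l = 0
      rw [he1, prod1' (Ne.symm hl)]
    obtain ⟨y, hy⟩ := h1
    have h2 : y <• (E 1 : Alg K ι) = y := by
      apply hf
      have h3 : (t l * E 1 : Alg K ι) = E 0 * t l := by rw [E_mul_t, zero_add]
      rw [map_smul, hy, rm_rm, h3, ← rm_rm, he2]
    obtain ⟨β, hβ⟩ := Zm_deg_one y.2 (congrArg Subtype.val h2)
    exact ⟨β, y, hy, hβ⟩
  have hzero : ∀ l, l ≠ i → l ≠ j → e <• (t l : Alg K ι) = 0 := by
    intro l hl hlj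
    obtain ⟨β, y, h1, h2⟩ := hy l hl
    have h3 : y <• (t j : Alg K ι) = 0 := by
      apply hf
      rw [map_smul, h1, map_zero, rm_rm, t_mul_t hlj, rm_zero]
    have h4 : (y : Alg K ι) * t j = 0 := congrArg Subtype.val h3
    rw [h2, smul_mul_assoc, prod2] at h4
    have h5 : β = 0 := by
      rcases smul_eq_zero.1 h4 with h | h
      · exact h
      · exact absurd h E2Om_ne
    have h6 : y = 0 := by
      apply Subtype.ext
      rw [h2, h5, zero_smul]; rfl
    rw [← h1, h6, map_zero]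
  by_cases hij : j = i
  · exact ⟨e, he1, he2, fun l hl => hzero l hl (hij ▸ hl)⟩
  · obtain ⟨β, y, h1, h2⟩ := hy j hij
    have hmemj : β • (E 2 * t j : Alg K ι) ∈ Zm K j :=
      ⟨β • 1, by rw [lmul_apply, mul_smul_comm, mul_one]⟩
    let z : Zm K j := ⟨_, hmemj⟩
    have hz1 : f (z <• (E 0 : Alg K ι)) = f z := by
      congr 1
      apply Subtype.ext
      change β • (E 2 * t j : Alg K ι) * E 0 = β • (E 2 * t j)
      rw [smul_mul_assoc, prodE0]
    have hz2 : f (z <• (t j : Alg K ι)) = e <• (t j : Alg K ι) := by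
      rw [← h1]
      congr 1
      apply Subtype.ext
      change β • (E 2 * t j : Alg K ι) * t j = (y : Alg K ι)
      rw [smul_mul_assoc, prod1, h2]
    have hz3 : ∀ l, l ≠ j → f (z <• (t l : Alg K ι)) = 0 := by
      intro l hl
      rw [← map_zero f]
      congr 1
      apply Subtype.ext
      change β • (E 2 * t j : Alg K ι) * t l = 0
      rw [smul_mul_assoc, prod1' (Ne.symm hl), smul_zero]
    refine ⟨e - f z, ?_, ?_, ?_⟩
    · rw [map_sub, hgf, sub_zero, he1]
    · rw [smul_sub, he2, ← map_smul, hz1]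
    · intro l hl
      rw [smul_sub, ← map_smul]
      by_cases hlj : l = j
      · subst hlj
        rw [hz2, sub_self]
      · rw [hz3 l hlj, sub_zero, hzero l hl hlj]

theorem rm_of_gen [Nontrivial ι] {i : ι} {e : X} (h0 : e <• (E 0 : Alg K ι) = e)
    (h1 : ∀ l, l ≠ i → e <• (t l : Alg K ι) = 0) (c : Alg K ι) (hc : E 2 * t i * c = 0) :
    e <• c = 0 := by
  rw [Et_mul] at hc
  have hc0 : c.c0 0 = 0 := by
    have := congrFun (congrFun (congrArg Alg.c1 hc) i) 2
    simpa using this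
  have hc1 : c.c1 i 0 = 0 := by
    have := congrFun (congrFun (congrArg Alg.c2 hc) i) 2
    simpa using this
  have hc2 : c.c2 i 0 = 0 := by
    have := congrFun (congrArg Alg.c3 hc) 2
    simpa using this
  have hE : ∀ v, v ≠ 0 → e <• (E v : Alg K ι) = 0 := by
    intro v hv
    rw [← h0, rm_rm, E_mul_E, if_neg (Ne.symm hv), rm_zero]
  obtain ⟨l, hl⟩ := exists_ne i
  have hOm : e <• (Om : Alg K ι) = 0 := by
    rw [← t_mul_t2 l, ← rm_rm, h1 l hl, smul_zero]
  have ht2 : ∀ l, l ≠ i → e <• (t2 l : Alg K ι) = 0 := by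
    intro l hl
    rw [← t_mul_self l, ← rm_rm, h1 l hl, smul_zero]
  rw [expand c]
  simp only [rm_add, rm_sum, rm_smul, ← rm_rm]
  have h2 : ∀ v, c.c0 v • (e <• (E v : Alg K ι)) = 0 := by
    intro v
    by_cases hv : v = 0
    · subst hv; rw [hc0, zero_smul]
    · rw [hE v hv, smul_zero]
  have h3 : ∀ v k, c.c1 k v • ((e <• (E v : Alg K ι)) <• (t k : Alg K ι)) = 0 := by
    intro v k
    by_cases hv : v = 0
    · subst hv
      by_cases hk : k = i
      · subst hk; rw [hc1, zero_smul]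
      · rw [h0, h1 k hk, smul_zero]
    · rw [hE v hv, smul_zero, smul_zero]
  have h4 : ∀ v k, c.c2 k v • ((e <• (E v : Alg K ι)) <• (t2 k : Alg K ι)) = 0 := by
    intro v k
    by_cases hv : v = 0
    · subst hv
      by_cases hk : k = i
      · subst hk; rw [hc2, zero_smul]
      · rw [h0, ht2 k hk, smul_zero]
    · rw [hE v hv, smul_zero, smul_zero]
  have h5 : ∀ v, c.c3 v • ((e <• (E v : Alg K ι)) <• (Om : Alg K ι)) = 0 := by
    intro v
    by_cases hv : v = 0
    · subst hv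
      rw [h0, hOm, smul_zero]
    · rw [hE v hv, smul_zero, smul_zero]
  simp only [h2, h3, h4, h5, Finset.sum_const_zero, add_zero]

end

/-- The `K`-vector space structure of a right module. -/
@[reducible] def kMod (K : Type) [Field K] {A : Type} [Ring A] [Algebra K A] (X : Type)
    [AddCommGroup X] [Module Aᵐᵒᵖ X] : Module K X :=
  Module.compHom X (algebraMap K Aᵐᵒᵖ)

theorem kTower (K : Type) [Field K] {A : Type} [Ring A] [Algebra K A] (X : Type)
    [AddCommGroup X] [Module Aᵐᵒᵖ X] :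
    letI := kMod K (A := A) X
    IsScalarTower K Aᵐᵒᵖ X :=
  letI := kMod K (A := A) X
  ⟨fun c r m => by rw [Algebra.smul_def, mul_smul]; rfl⟩

theorem extZero_Zm [Nontrivial ι] (i j : ι) : ExtZero (Alg K ι)ᵐᵒᵖ (Zm K i) (Zm K j) := by
  intro X _ _ f g hf hg hfg
  let _ := kMod K (A := Alg K ι) X
  have _ := kTower K (A := Alg K ι) X
  obtain ⟨e, he, h0, h1⟩ := exists_gen f g hf hg hfg
  obtain ⟨s, hs⟩ := exists_cyc_hom (E 2 * t i : Alg K ι) e (rm_of_gen h0 h1)
  refine ⟨s, LinearMap.ext fun ⟨x, hx⟩ => ?_⟩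
  obtain ⟨c, rfl⟩ := mem_cyc.1 hx
  refine (congrArg g (hs c hx)).trans ?_
  rw [map_smul]
  apply Subtype.ext
  change (g e : Alg K ι) * c = E 2 * t i * c
  rw [he]

end Pool.Agent.LibO1
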