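import Pool.Agent.LibO1.Lift

/-!
MP_b19625: the inductive step and the base of the construction of resolutions.
-/

set_option autoImplicit false
set_option linter.unusedSectionVars false

open scoped RightActions

namespace Pool.Agent.LibO1

open Finset Alg MulOpposite Module

variable {K : Type} [Field K] {ι : Type} [Fintype ι] [DecidableEq ι]

/-- Elements of `t k A` are annihilated by the other colours. -/
theorem cyc_t_rm (k l : ι) (hl : l ≠ k) (x : cyc (t k : Alg K ι)) : x <• (t l : Alg K ι) = 0 := by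
  obtain ⟨c, hc⟩ := mem_cyc.1 x.2
  apply Subtype.ext
  change x.1 * t l = 0
  rw [← hc, mul_assoc]
  ext
  · simp
  · simp
  · rename_i m v
    by_cases hm : m = k
    · subst hm; simp [Ne.symm hl]
    · simp [hm]
  · simp [hl]

theorem cyc_t2_rm (k l : ι) (hl : l ≠ k) (x : cyc (t2 k : Alg K ι)) :
    x <• (t l : Alg K ι) = 0 := by
  obtain ⟨c, hc⟩ := mem_cyc.1 x.2
  apply Subtype.ext
  change x.1 * t l = 0
  rw [← hc, mul_assoc]
  ext
  · simp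
  · simp
  · simp
  · simp [hl]

theorem cyc_Om_rm (l : ι) (x : cyc (Om : Alg K ι)) : x <• (t l : Alg K ι) = 0 := by
  obtain ⟨c, hc⟩ := mem_cyc.1 x.2
  apply Subtype.ext
  change x.1 * t l = 0
  rw [← hc, mul_assoc]
  ext <;> simp

section

variable {X : Type} [AddCommGroup X] [Module (Alg K ι)ᵐᵒᵖ X]

theorem hom_rm {P : Type} [AddCommGroup P] [Module (Alg K ι)ᵐᵒᵖ P] (φ : P →ₗ[(Alg K ι)ᵐᵒᵖ] X)
    (x : P) (a : Alg K ι) : φ (x <• a) = φ x <• a := map_smul φ _ _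

/-- **The inductive step.** -/
theorem Res.step [Nonempty ι] (X' : Submodule (Alg K ι)ᵐᵒᵖ X)
    (h' : Res (Alg K ι)ᵐᵒᵖ (GM K ι) X') (v : ZMod 3) (τ : X)
    (hOm : ∀ x : X, x <• (Om : Alg K ι) = 0)
    (hmem : ∀ c : Alg K ι, τ <• c ∈ X' ↔ c.c0 v = 0)
    (hdec : ∀ x : X, ∃ b : Alg K ι, x - τ <• b ∈ X')
    (hcol : ∀ (k : ι) (x : X), (∀ l, l ≠ k → x <• (t l : Alg K ι) = 0) → x ∈ X') :
    Res (Alg K ι)ᵐᵒᵖ (GM K ι) X := by
  obtain ⟨M₀, _, _, f, h1, h2, h3⟩ := h'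
  -- maps into `X'` lift
  have hl : ∀ {P : Type} [AddCommGroup P] [Module (Alg K ι)ᵐᵒᵖ P],
      InAdd (Alg K ι)ᵐᵒᵖ (GM K ι) P → ∀ φ : P →ₗ[(Alg K ι)ᵐᵒᵖ] X, (∀ z, φ z ∈ X') →
      ∃ ψ : P →ₗ[(Alg K ι)ᵐᵒᵖ] M₀, ∀ z, (f (ψ z)).1 = φ z := by
    intro P _ _ hP φ hφ
    obtain ⟨ψ, hψ⟩ := hP.lift f h2 (LinearMap.codRestrict X' φ hφ)
    exact ⟨ψ, fun z => congrArg Subtype.val (LinearMap.congr_fun hψ z)⟩
  have hcol' : ∀ {P : Type} [AddCommGroup P] [Module (Alg K ι)ᵐᵒᵖ P] (k : ι),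
      (∀ l, l ≠ k → ∀ x : P, x <• (t l : Alg K ι) = 0) →
      InAdd (Alg K ι)ᵐᵒᵖ (GM K ι) P →
      Lifts ((X'.subtype ∘ₗ f).coprod (barHom τ (hOm τ))) P := by
    intro P _ _ k hk hP φ
    obtain ⟨ψ, hψ⟩ := hl hP φ (fun z => hcol k _ fun l hlk => by
      rw [← hom_rm, hk l hlk, map_zero])
    refine ⟨ψ.prod 0, LinearMap.ext fun z => ?_⟩
    change (f (ψ z)).1 + barHom τ (hOm τ) 0 = φ z
    rw [map_zero, add_zero, hψ]
  have hQ : ∀ c : Alg K ι, mkB c ∈ X'.comap (barHom τ (hOm τ)) ↔ c.c0 v = 0 := fun c => hmem c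
  have hQA := inAdd_Q v _ hQ
  obtain ⟨σ, hσ⟩ := hl hQA
    (barHom τ (hOm τ) ∘ₗ (X'.comap (barHom τ (hOm τ))).subtype) (fun z => z.2)
  have hσ' : ∀ z : X'.comap (barHom τ (hOm τ)), f (σ z) = ⟨barHom τ (hOm τ) z.1, z.2⟩ :=
    fun z => Subtype.ext (hσ z)
  refine ⟨M₀ × Bar K ι, inferInstance, inferInstance,
    (X'.subtype ∘ₗ f).coprod (barHom τ (hOm τ)), inAdd_prod h1 inAdd_Bar, ?_, ?_⟩
  · refine lifts_GM ?_ ?_ (fun k => hcol' k (fun l hlk x => cyc_t_rm k l hlk x) (inAdd_t k))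
      (fun k => hcol' k (fun l hlk x => cyc_t2_rm k l hlk x) (inAdd_t2 k)) ?_
    · intro φ
      obtain ⟨b, hb⟩ := hdec (φ 1)
      obtain ⟨ψ, hψ⟩ := hl inAdd_A (orb (φ 1 - τ <• b)) (fun z => X'.smul_mem _ hb)
      refine ⟨ψ.prod (Submodule.mkQ _ ∘ₗ lmul b), LinearMap.ext fun z => ?_⟩
      change (f (ψ z)).1 + barHom τ (hOm τ) (mkB (b * z)) = φ z
      rw [hψ, barHom_mk, orb_apply, smul_sub, rm_rm, sub_add_cancel, ← hom_rm]
      congr 1
      exact one_mul z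
    · intro φ
      obtain ⟨b, hb⟩ := hdec (φ (mkB 1))
      obtain ⟨ψ, hψ⟩ := hl inAdd_Bar (barHom (φ (mkB 1) - τ <• b) (hOm _)) (fun z => by
        obtain ⟨c, rfl⟩ := mkB_surj z
        exact X'.smul_mem _ hb)
      refine ⟨ψ.prod (lbar b), LinearMap.ext fun z => ?_⟩
      obtain ⟨c, rfl⟩ := mkB_surj z
      change (f (ψ (mkB c))).1 + barHom τ (hOm τ) (lbar b (mkB c)) = φ (mkB c)
      rw [hψ, barHom_mk, lbar_mk, barHom_mk, smul_sub, rm_rm, sub_add_cancel, ← hom_rm,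
        mkB_rm, one_mul]
    · obtain ⟨k⟩ := ‹Nonempty ι›
      exact hcol' k (fun l _ x => cyc_Om_rm l x) inAdd_Om
  · have hz : ∀ z : LinearMap.ker ((X'.subtype ∘ₗ f).coprod (barHom τ (hOm τ))),
        (f z.1.1).1 = - barHom τ (hOm τ) z.1.2 := fun z => eq_neg_of_add_eq_zero_left z.2
    have hz2 : ∀ z : LinearMap.ker ((X'.subtype ∘ₗ f).coprod (barHom τ (hOm τ))),
        z.1.2 ∈ X'.comap (barHom τ (hOm τ)) := by
      intro z
      rw [Submodule.mem_comap, ← neg_mem_iff, ← hz z]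
      exact (f z.1.1).2
    let qm : LinearMap.ker ((X'.subtype ∘ₗ f).coprod (barHom τ (hOm τ))) →ₗ[(Alg K ι)ᵐᵒᵖ]
        X'.comap (barHom τ (hOm τ)) :=
      LinearMap.codRestrict _ (LinearMap.snd _ _ _ ∘ₗ Submodule.subtype _) hz2
    let am : LinearMap.ker ((X'.subtype ∘ₗ f).coprod (barHom τ (hOm τ))) →ₗ[(Alg K ι)ᵐᵒᵖ] M₀ :=
      LinearMap.fst _ _ _ ∘ₗ Submodule.subtype _ + σ ∘ₗ qm
    have hz3 : ∀ z, am z ∈ LinearMap.ker f := by
      intro z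
      rw [LinearMap.mem_ker]
      change f (z.1.1 + σ (qm z)) = 0
      rw [map_add, hσ']
      apply Subtype.ext
      change (f z.1.1).1 + barHom τ (hOm τ) z.1.2 = 0
      exact z.2
    have hz4 : ∀ z : LinearMap.ker f × X'.comap (barHom τ (hOm τ)),
        (((LinearMap.ker f).subtype.coprod (-σ)).prod
          (Submodule.subtype _ ∘ₗ LinearMap.snd _ _ _)) z ∈
        LinearMap.ker ((X'.subtype ∘ₗ f).coprod (barHom τ (hOm τ))) := by
      intro z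
      rw [LinearMap.mem_ker]
      change (f (z.1.1 + (-σ z.2))).1 + barHom τ (hOm τ) z.2.1 = 0
      rw [map_add, map_neg, LinearMap.mem_ker.1 z.1.2, hσ', zero_add]
      exact neg_add_cancel _
    refine (inAdd_prod h3 hQA).retract ((LinearMap.codRestrict _ _ hz3).prod qm)
      (LinearMap.codRestrict _ _ hz4) ?_
    refine LinearMap.ext fun z => Subtype.ext ?_
    change (z.1.1 + σ (qm z) + (-σ (qm z)), z.1.2) = z.1
    rw [add_neg_cancel_right]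

end

end Pool.Agent.LibO1
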